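import Pool.Agent.H97.ICA.Defs

/-!
[CAU] Row of chapter 1 (THEOREM A) of THEOREM IC, MP_8e9775_nt.

PROOF. Integrate over x in [-1/2, 1/2]: the integral of Fn a (x + i y) * exp (-2 pi i n x) equals
a n * exp (-2 pi n y): exchange of sum and integral (the terms are dominated by norm (a m) *
exp (-2 pi m y), summable; for instance intervalIntegral.hasSum_integral_of_dominated_convergence or
hasSum_intervalIntegral_of_summable_norm) and the integral of exp (2 pi i (m - n) x) over a period is 1 if
m = n and 0 otherwise (integral_exp_mul_complex, or fourierIntegral facts). Then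
intervalIntegral.norm_integral_le_of_norm_le_const with the bound B on an interval of length 1 gives
norm (a n) * exp (-2 pi n y) <= B.
(Other way: Dn(q) = sum a m q^m is analytic on the unit disc; Cauchy estimate on the circle of
radius exp (-2 pi y); every point of the circle is exp (2 pi i (x + i y)) with |x| <= 1/2.)
-/

namespace Pool.Agent.H97.ICA

open Complex NumberField

noncomputable section

private theorem per_int (k : ℤ) (hk : k ≠ 0) :
    ∫ x in (-(1 / 2 : ℝ))..(1 / 2 : ℝ), Complex.exp ((2 * Real.pi * Complex.I * (k : ℂ)) * (x : ℂ)) = 0 := by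
  have hc : (2 * Real.pi * Complex.I * (k : ℂ)) ≠ 0 := by
    have h1 : (k : ℂ) ≠ 0 := by exact_mod_cast hk
    have h2 : (Real.pi : ℂ) ≠ 0 := by exact_mod_cast Real.pi_ne_zero
    exact mul_ne_zero (mul_ne_zero (mul_ne_zero two_ne_zero h2) Complex.I_ne_zero) h1
  rw [integral_exp_mul_complex hc]
  have h1 : Complex.exp ((2 * Real.pi * Complex.I * (k : ℂ)) * ((1 / 2 : ℝ) : ℂ)) =
      Complex.exp ((2 * Real.pi * Complex.I * (k : ℂ)) * ((-(1 / 2) : ℝ) : ℂ)) := by
    have h2 : (2 * Real.pi * Complex.I * (k : ℂ)) * ((1 / 2 : ℝ) : ℂ) =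
        (2 * Real.pi * Complex.I * (k : ℂ)) * ((-(1 / 2) : ℝ) : ℂ) +
          (k : ℂ) * (2 * Real.pi * Complex.I) := by
      push_cast
      ring
    rw [h2, Complex.exp_add, Complex.exp_int_mul_two_pi_mul_I, mul_one]
  rw [h1, sub_self, zero_div]

theorem cau (hE : ExaStmt) : CauStmt := by
  intro a ha y B hy hB n
  have hs : Summable fun m : ℕ => ‖a m‖ * Real.exp (-(2 * Real.pi * y * m)) := by
    have h1 := ha (Real.exp (-(2 * Real.pi * y))) (Real.exp_pos _).le (by
      rw [Real.exp_lt_one_iff]
      have := Real.pi_pos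
      have h2 : 0 < 2 * Real.pi * y := by positivity
      linarith)
    refine h1.congr fun m => ?_
    rw [← Real.exp_nat_mul]
    congr 2
    ring
  have hterm : ∀ (m : ℕ) (x : ℝ), ‖a m * Complex.exp (2 * Real.pi * Complex.I * m *
      ((x : ℂ) + y * Complex.I))‖ = ‖a m‖ * Real.exp (-(2 * Real.pi * y * m)) := by
    intro m x
    rw [norm_mul, Complex.norm_exp]
    congr 2
    have h1 : 2 * (Real.pi : ℂ) * Complex.I * m * ((x : ℂ) + y * Complex.I) =
        ((-(2 * Real.pi * y * m) : ℝ) : ℂ) + ((2 * Real.pi * m * x : ℝ) : ℂ) * Complex.I := by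
      push_cast
      linear_combination (2 * (Real.pi : ℂ) * m * y) * Complex.I_mul_I
    rw [h1, Complex.add_re, Complex.ofReal_re, Complex.re_ofReal_mul, Complex.I_re, mul_zero,
      add_zero]
  have hone : ∀ x : ℝ, ‖Complex.exp (-(2 * Real.pi * Complex.I * n * (x : ℂ)))‖ = 1 := by
    intro x
    have h1 : -(2 * (Real.pi : ℂ) * Complex.I * n * (x : ℂ)) =
        ((-(2 * Real.pi * n * x) : ℝ) : ℂ) * Complex.I := by
      push_cast
      ring
    rw [h1, Complex.norm_exp_ofReal_mul_I]
  have hsum : HasSum (fun m : ℕ => ∫ x in (-(1 / 2 : ℝ))..(1 / 2 : ℝ),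
      (a m * Complex.exp (2 * Real.pi * Complex.I * m * ((x : ℂ) + y * Complex.I))) *
        Complex.exp (-(2 * Real.pi * Complex.I * n * (x : ℂ))))
      (∫ x in (-(1 / 2 : ℝ))..(1 / 2 : ℝ), Fn a ((x : ℂ) + y * Complex.I) *
        Complex.exp (-(2 * Real.pi * Complex.I * n * (x : ℂ)))) := by
    refine intervalIntegral.hasSum_integral_of_dominated_convergence
      (fun m _ => ‖a m‖ * Real.exp (-(2 * Real.pi * y * m))) ?_ ?_ ?_ ?_ ?_
    · intro m
      apply Continuous.aestronglyMeasurable
      fun_prop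
    · intro m
      refine Filter.Eventually.of_forall fun x _ => ?_
      rw [norm_mul, hterm, hone, mul_one]
    · exact Filter.Eventually.of_forall fun x _ => hs
    · exact intervalIntegrable_const
    · refine Filter.Eventually.of_forall fun x _ => ?_
      refine HasSum.mul_right _ ?_
      have h1 : Summable fun m : ℕ => a m * Complex.exp (2 * Real.pi * Complex.I * m *
          ((x : ℂ) + y * Complex.I)) := by
        refine Summable.of_norm ?_
        refine hs.congr fun m => ?_
        rw [hterm]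
      exact h1.hasSum
  have hval : ∀ m : ℕ, ∫ x in (-(1 / 2 : ℝ))..(1 / 2 : ℝ),
      (a m * Complex.exp (2 * Real.pi * Complex.I * m * ((x : ℂ) + y * Complex.I))) *
        Complex.exp (-(2 * Real.pi * Complex.I * n * (x : ℂ))) =
      if m = n then a n * Complex.exp (((-(2 * Real.pi * y * n) : ℝ) : ℂ)) else 0 := by
    intro m
    have h1 : ∀ x : ℝ, (a m * Complex.exp (2 * Real.pi * Complex.I * m *
        ((x : ℂ) + y * Complex.I))) * Complex.exp (-(2 * Real.pi * Complex.I * n * (x : ℂ))) =
        (a m * Complex.exp (((-(2 * Real.pi * y * m) : ℝ) : ℂ))) *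
          Complex.exp ((2 * Real.pi * Complex.I * (((m : ℤ) - (n : ℤ) : ℤ) : ℂ)) * (x : ℂ)) := by
      intro x
      rw [mul_assoc (a m), ← Complex.exp_add, mul_assoc (a m), ← Complex.exp_add]
      congr 2
      push_cast
      linear_combination (2 * (Real.pi : ℂ) * m * y) * Complex.I_mul_I
    simp_rw [h1]
    rw [intervalIntegral.integral_const_mul]
    by_cases hmn : m = n
    · subst hmn
      rw [if_pos rfl]
      have h2 : ∀ x : ℝ, Complex.exp ((2 * Real.pi * Complex.I *
          (((m : ℤ) - (m : ℤ) : ℤ) : ℂ)) * (x : ℂ)) = 1 := by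
        intro x
        rw [sub_self, Int.cast_zero, mul_zero, zero_mul, Complex.exp_zero]
      simp_rw [h2]
      rw [intervalIntegral.integral_const]
      norm_num
    · rw [if_neg hmn, per_int _ (by omega), mul_zero]
  simp_rw [hval] at hsum
  have h3 := hsum.unique (hasSum_ite_eq n (a n * Complex.exp (((-(2 * Real.pi * y * n) : ℝ) : ℂ))))
  have h4 := intervalIntegral.norm_integral_le_of_norm_le_const (a := -(1 / 2 : ℝ))
    (b := (1 / 2 : ℝ)) (C := B) (f := fun x : ℝ => Fn a ((x : ℂ) + y * Complex.I) *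
        Complex.exp (-(2 * Real.pi * Complex.I * n * (x : ℂ)))) (by
      intro x hx
      rw [norm_mul, hone, mul_one]
      apply hB
      rw [Set.uIoc_of_le (by norm_num)] at hx
      rw [abs_le]
      exact ⟨hx.1.le, hx.2⟩)
  rw [h3, norm_mul, Complex.norm_exp, Complex.ofReal_re] at h4
  have h5 : |(1 / 2 : ℝ) - -(1 / 2)| = 1 := by norm_num
  rw [h5, mul_one] at h4
  have h6 : Real.exp (-(2 * Real.pi * y * n)) * Real.exp (2 * Real.pi * y * n) = 1 := by
    rw [← Real.exp_add, neg_add_cancel, Real.exp_zero]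
  calc ‖a n‖ = (‖a n‖ * Real.exp (-(2 * Real.pi * y * n))) * Real.exp (2 * Real.pi * y * n) := by
        rw [mul_assoc, h6, mul_one]
    _ ≤ B * Real.exp (2 * Real.pi * y * n) :=
        mul_le_mul_of_nonneg_right h4 (Real.exp_pos _).le

end

end Pool.Agent.H97.ICA
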