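import Pool.Agent.H97.ICA.Defs

/-!
[EXA] Row of chapter 1 (THEOREM A) of THEOREM IC, MP_8e9775_nt.

PROOF. norm of exp (2 pi i n z) = exp (-2 pi n im z) (Complex.norm_exp, real part of 2 pi i n z is
-2 pi n im z) = r^n with r = exp (-2 pi im z) < 1. So the first claim is Cv with this r. The second:
norm_tsum_le_tsum_norm and termwise exp (-2 pi n im z) <= exp (-2 pi y n) (the majorant is summable:
Cv with r = exp (-2 pi y)). The third: exp (2 pi i n (z+1)) = exp (2 pi i n z) (n natural:
Complex.exp_nat_mul_two_pi_mul_I, or exp_add and exp_nat_mul).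
-/

namespace Pool.Agent.H97.ICA

open Complex NumberField

noncomputable section

private theorem exa_norm (a : ℕ → ℂ) (z : ℂ) (n : ℕ) :
    ‖a n * Complex.exp (2 * Real.pi * Complex.I * n * z)‖ =
      ‖a n‖ * Real.exp (-(2 * Real.pi * z.im * n)) := by
  rw [norm_mul, Complex.norm_exp]
  congr 2
  have h : (2 * Real.pi * Complex.I * n * z : ℂ) = ((2 * Real.pi * n : ℝ) : ℂ) * (Complex.I * z) := by
    push_cast
    ring
  rw [h, Complex.re_ofReal_mul, Complex.I_mul_re]
  ring

private theorem exa_pow (y : ℝ) (n : ℕ) :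
    Real.exp (-(2 * Real.pi * y * n)) = Real.exp (-(2 * Real.pi * y)) ^ n := by
  rw [← Real.exp_nat_mul]
  congr 1
  ring

private theorem exa_sum {a : ℕ → ℂ} (h : Cv a) {y : ℝ} (hy : 0 < y) :
    Summable fun n : ℕ => ‖a n‖ * Real.exp (-(2 * Real.pi * y * n)) := by
  have h1 : Real.exp (-(2 * Real.pi * y)) < 1 := by
    rw [Real.exp_lt_one_iff]
    have := mul_pos (mul_pos (zero_lt_two : (0 : ℝ) < 2) Real.pi_pos) hy
    linarith
  refine (h _ (Real.exp_pos _).le h1).congr fun n => ?_
  rw [exa_pow]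

theorem exa : ExaStmt := by
  intro a ha z y hy hyz
  have hz : 0 < z.im := hy.trans_le hyz
  have h1 : Summable fun n : ℕ => ‖a n * Complex.exp (2 * Real.pi * Complex.I * n * z)‖ := by
    refine (exa_sum ha hz).congr fun n => ?_
    rw [exa_norm]
  refine ⟨h1, ?_, ?_⟩
  · unfold Fn
    refine (norm_tsum_le_tsum_norm h1).trans ?_
    refine Summable.tsum_le_tsum (fun n => ?_) h1 (exa_sum ha hy)
    rw [exa_norm]
    refine mul_le_mul_of_nonneg_left (Real.exp_le_exp.2 ?_) (norm_nonneg _)
    have h2 : 2 * Real.pi * y * n ≤ 2 * Real.pi * z.im * n := by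
      have := Real.pi_pos
      gcongr
    linarith
  · unfold Fn
    refine tsum_congr fun n => ?_
    congr 1
    have h2 : (2 * Real.pi * Complex.I * n * (z + 1) : ℂ) =
        2 * Real.pi * Complex.I * n * z + n * (2 * Real.pi * Complex.I) := by ring
    rw [h2, Complex.exp_add, Complex.exp_nat_mul_two_pi_mul_I, mul_one]

end

end Pool.Agent.H97.ICA
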