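import Pool.Agent.H97.ICA.Defs

/-!
[MXP] Row of chapter 1 (THEOREM A) of THEOREM IC, MP_8e9775_nt.

PROOF. Let g(q) = sum over m of a (n + m) q^m, for |q| < 1: continuous on the closed disc of radius
rho = exp (-2 pi y) and differentiable in the open unit disc (power series; e.g.
HasFPowerSeriesOnBall, or hasSum of analytic functions; differentiableOn_tsum_of_summable_norm).
As a j = 0 for j < n one has Fn a z = q^n g(q) with q = exp (2 pi i z). On |q| = rho write
q = exp (2 pi i (x + i y)) with x = arg q / (2 pi): so norm (g q) <= B rho^(-n). Maximum principle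
(Complex.norm_le_of_forall_mem_frontier_norm_le) on the ball of radius rho (closed ball for
im z = y): norm (g q) <= B rho^(-n) for |q| <= rho, and norm (Fn a z) = |q|^n norm (g q)
<= B (|q|/rho)^n = B exp (-2 pi (im z - y) n).
-/

namespace Pool.Agent.H97.ICA

open Complex NumberField

noncomputable section

private theorem shift_summable (a : ℕ → ℂ) (ha : Cv a) (n : ℕ) (r : ℝ) (hr0 : 0 < r) (hr1 : r < 1) :
    Summable (fun m : ℕ => ‖a (m + n)‖ * r ^ m) := by
  have h1 := ha r hr0.le hr1
  have h2 : Summable (fun m : ℕ => ‖a (m + n)‖ * r ^ (m + n)) :=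
    (summable_nat_add_iff (f := fun m : ℕ => ‖a m‖ * r ^ m) n).2 h1
  have h3 : (fun m : ℕ => ‖a (m + n)‖ * r ^ m)
      = fun m : ℕ => (r ^ n)⁻¹ * (‖a (m + n)‖ * r ^ (m + n)) := by
    funext m
    rw [pow_add]
    field_simp
  rw [h3]
  exact h2.mul_left _

private theorem fn_eq (a : ℕ → ℂ) (z : ℂ)
    (hs : Summable fun n : ℕ => ‖a n * Complex.exp (2 * Real.pi * Complex.I * n * z)‖)
    (n : ℕ) (hn : ∀ j < n, a j = 0) :
    Fn a z = Complex.exp (2 * Real.pi * Complex.I * z) ^ n *
      ∑' m : ℕ, a (m + n) * Complex.exp (2 * Real.pi * Complex.I * z) ^ m := by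
  have hs' : Summable fun n : ℕ => a n * Complex.exp (2 * Real.pi * Complex.I * n * z) := hs.of_norm
  unfold Fn
  rw [← hs'.sum_add_tsum_nat_add n]
  rw [Finset.sum_eq_zero (fun j hj => by rw [hn j (Finset.mem_range.1 hj), zero_mul]), zero_add,
    ← tsum_mul_left]
  congr 1
  funext m
  have h1 : Complex.exp (2 * Real.pi * Complex.I * ((m + n : ℕ) : ℂ) * z)
      = Complex.exp (2 * Real.pi * Complex.I * z) ^ (m + n) := by
    rw [← Complex.exp_nat_mul]
    congr 1
    push_cast
    ring
  rw [h1, pow_add]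
  ring

theorem mxp (hE : ExaStmt) : MaxStmt := by
  intro a ha y B hy hB n hn z hz
  set ρ : ℝ := Real.exp (-(2 * Real.pi * y)) with hρ
  have hρ0 : 0 < ρ := Real.exp_pos _
  have hpi := Real.pi_pos
  have hρ1 : ρ < 1 := by
    rw [hρ, Real.exp_lt_one_iff]
    have : 0 < 2 * Real.pi * y := by positivity
    linarith
  obtain ⟨r, hr1, hr2⟩ := exists_between hρ1
  have hr0 : 0 < r := hρ0.trans hr1
  set g : ℂ → ℂ := fun q => ∑' m : ℕ, a (m + n) * q ^ m with hg
  have hgd : DifferentiableOn ℂ g (Metric.ball 0 r) := by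
    apply Complex.differentiableOn_tsum_of_summable_norm (shift_summable a ha n r hr0 hr2)
    · intro i
      exact ((differentiable_const _).mul (differentiable_id.pow i)).differentiableOn
    · exact Metric.isOpen_ball
    · intro i w hw
      rw [norm_mul, norm_pow]
      rw [Metric.mem_ball, dist_zero_right] at hw
      gcongr
  have hgc : DiffContOnCl ℂ g (Metric.ball 0 ρ) := by
    apply hgd.diffContOnCl_ball
    exact Metric.closedBall_subset_ball hr1
  have hfr : ∀ q ∈ frontier (Metric.ball (0 : ℂ) ρ), ‖g q‖ ≤ B / ρ ^ n := by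
    intro q hq
    rw [frontier_ball _ hρ0.ne', mem_sphere_zero_iff_norm] at hq
    set x : ℝ := Complex.arg q / (2 * Real.pi) with hx
    have hexp : Complex.exp (2 * Real.pi * Complex.I * ((x : ℂ) + y * Complex.I)) = q := by
      have h1 : 2 * Real.pi * Complex.I * ((x : ℂ) + y * Complex.I)
          = ((-(2 * Real.pi * y) : ℝ) : ℂ) + (Complex.arg q : ℂ) * Complex.I := by
        have h2 : ((Complex.arg q : ℝ) : ℂ) = 2 * Real.pi * (x : ℂ) := by
          rw [hx]
          push_cast
          field_simp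
        rw [h2]
        push_cast
        linear_combination (2 * (Real.pi : ℂ) * y) * Complex.I_mul_I
      rw [h1, Complex.exp_add, ← Complex.ofReal_exp, ← hρ]
      conv_rhs => rw [← Complex.norm_mul_exp_arg_mul_I q, hq]
    have hs := (hE a ha ((x : ℂ) + y * Complex.I) y hy (by simp)).1
    have h3 := fn_eq a _ hs n hn
    rw [hexp] at h3
    have h4 := hB x
    rw [h3, norm_mul, norm_pow, hq] at h4
    rw [le_div_iff₀ (pow_pos hρ0 n), mul_comm]
    exact h4
  have hqn : ‖Complex.exp (2 * Real.pi * Complex.I * z)‖ = Real.exp (-(2 * Real.pi * z.im)) := by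
    rw [Complex.norm_exp]
    congr 1
    simp
  have hmem : Complex.exp (2 * Real.pi * Complex.I * z) ∈ closure (Metric.ball (0 : ℂ) ρ) := by
    rw [closure_ball _ hρ0.ne', mem_closedBall_zero_iff, hqn, hρ]
    apply Real.exp_le_exp.2
    have : 2 * Real.pi * y ≤ 2 * Real.pi * z.im := by gcongr
    linarith
  have h5 := Complex.norm_le_of_forall_mem_frontier_norm_le Metric.isBounded_ball hgc hfr hmem
  have hs := (hE a ha z y hy hz).1
  rw [fn_eq a z hs n hn, norm_mul, norm_pow, hqn]
  calc Real.exp (-(2 * Real.pi * z.im)) ^ n *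
        ‖∑' m : ℕ, a (m + n) * Complex.exp (2 * Real.pi * Complex.I * z) ^ m‖
      ≤ Real.exp (-(2 * Real.pi * z.im)) ^ n * (B / ρ ^ n) := by
        gcongr
    _ = B * Real.exp (-(2 * Real.pi * (z.im - y) * n)) := by
        rw [hρ, ← Real.exp_nat_mul, ← Real.exp_nat_mul]
        have : Real.exp (-(2 * Real.pi * (z.im - y) * n))
            = Real.exp (n * (-(2 * Real.pi * z.im))) / Real.exp (n * (-(2 * Real.pi * y))) := by
          rw [← Real.exp_sub]
          congr 1
          ring
        rw [this]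
        ring

end

end Pool.Agent.H97.ICA
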