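import Pool.Agent.H97.ICA.Defs

/-!
[COE] Row of chapter 1 (THEOREM A) of THEOREM IC, MP_8e9775_nt.

PROOF. Mo t v l is aeval (fun i => PowerSeries.mk (v i)) of the monomial X0^a X1^b X2^(2t-a-b) (map_mul,
map_pow, aeval_X). By hB its Fn at z with im z = 1 is the product of the powers of Fn (v i) z, of
norm <= B^a B^b B^(2t-a-b) = B^(2t) (a, b <= t). hC with y = 1 gives the bound of the coefficients.
-/

namespace Pool.Agent.H97.ICA

open Complex NumberField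

noncomputable section

theorem coe (hB : EvbStmt) (hC : CauStmt) : CoeStmt := by
  intro v hv B hB1 hb t l n
  set P : MvPolynomial (Fin 3) ℂ := MvPolynomial.X 0 ^ (l.1 : ℕ) * MvPolynomial.X 1 ^ (l.2 : ℕ) *
      MvPolynomial.X 2 ^ (2 * t - (l.1 : ℕ) - (l.2 : ℕ)) with hP
  have hMo : MvPolynomial.aeval (fun i => PowerSeries.mk (v i)) P = Mo t v l := by
    simp [hP, Mo]
  obtain ⟨h1, h2⟩ := hB v hv P
  rw [hMo] at h1 h2
  have hl1 : (l.1 : ℕ) ≤ t := Nat.lt_succ_iff.mp l.1.2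
  have hl2 : (l.2 : ℕ) ≤ t := Nat.lt_succ_iff.mp l.2.2
  have hdeg : (l.1 : ℕ) + (l.2 : ℕ) + (2 * t - (l.1 : ℕ) - (l.2 : ℕ)) = 2 * t := by omega
  have h3 := hC _ h1 1 (B ^ (2 * t)) one_pos ?_ n
  · simpa using h3
  · intro x _
    have him : ((x : ℂ) + ((1 : ℝ) : ℂ) * Complex.I).im = 1 := by simp
    have hx := h2 ((x : ℂ) + ((1 : ℝ) : ℂ) * Complex.I) (by rw [him]; exact one_pos)
    rw [hx, hP]
    simp only [map_mul, map_pow, MvPolynomial.eval_X, norm_mul, norm_pow]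
    have hbi : ∀ i, ‖Fn (v i) ((x : ℂ) + ((1 : ℝ) : ℂ) * Complex.I)‖ ≤ B := fun i =>
      hb i _ (by rw [him])
    calc _ ≤ B ^ (l.1 : ℕ) * B ^ (l.2 : ℕ) * B ^ (2 * t - (l.1 : ℕ) - (l.2 : ℕ)) := by
          gcongr
          · exact hbi 0
          · exact hbi 1
          · exact hbi 2
      _ = B ^ (2 * t) := by rw [← pow_add, ← pow_add, hdeg]

end

end Pool.Agent.H97.ICA
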