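import Mathlib

/-!
THEOREM IC (MP_8e9775_nt, think 1047 of helper13), chapter 1 = THEOREM A: three power series with
coefficients in the ring of integers of a number field, all of whose conjugates converge in the open
unit disc and are carried by the single reflection z to -1/(Mz) to convergent power series, are
related by a nonzero homogeneous polynomial.

This file holds the definitions and the statements of the modules.
-/

namespace Pool.Agent.H97.ICA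

open Complex NumberField

noncomputable section

/-- The power series with coefficients `a` converges absolutely in the open unit disc. -/
def Cv (a : ℕ → ℂ) : Prop :=
  ∀ r : ℝ, 0 ≤ r → r < 1 → Summable (fun n : ℕ => ‖a n‖ * r ^ n)

/-- The function of the upper half plane attached to `a`: the sum of `a n * exp (2 pi i n z)`. -/
def Fn (a : ℕ → ℂ) (z : ℂ) : ℂ :=
  ∑' n : ℕ, a n * Complex.exp (2 * Real.pi * Complex.I * n * z)

/-- `h`, `hs` converge and the reflection z to -1/(Mz) carries `Fn h` to `Fn hs` in weight `K`. -/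
structure Pr (M : ℝ) (K : ℕ) (h hs : ℕ → ℂ) : Prop where
  ch : Cv h
  cs : Cv hs
  fe : ∀ z : ℂ, 0 < z.im →
    Fn h (-1 / ((M : ℂ) * z)) = ((Real.sqrt M : ℂ) * z) ^ K * Fn hs z

/-! ### Analytic modules -/

/-- [EXA] absolute convergence and the majorant. -/
def ExaStmt : Prop :=
  ∀ (a : ℕ → ℂ), Cv a → ∀ (z : ℂ) (y : ℝ), 0 < y → y ≤ z.im →
    (Summable fun n : ℕ => ‖a n * Complex.exp (2 * Real.pi * Complex.I * n * z)‖) ∧
    ‖Fn a z‖ ≤ ∑' n : ℕ, ‖a n‖ * Real.exp (-(2 * Real.pi * y * n)) ∧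
    Fn a (z + 1) = Fn a z

/-- [CAU] Cauchy's estimate on one period. -/
def CauStmt : Prop :=
  ∀ (a : ℕ → ℂ), Cv a → ∀ (y B : ℝ), 0 < y →
    (∀ x : ℝ, |x| ≤ 1 / 2 → ‖Fn a (x + y * Complex.I)‖ ≤ B) →
    ∀ n : ℕ, ‖a n‖ ≤ B * Real.exp (2 * Real.pi * y * n)

/-- [MAX] maximum principle with a zero of order `n` at the cusp. -/
def MaxStmt : Prop :=
  ∀ (a : ℕ → ℂ), Cv a → ∀ (y B : ℝ), 0 < y →
    (∀ x : ℝ, ‖Fn a (x + y * Complex.I)‖ ≤ B) →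
    ∀ n : ℕ, (∀ j < n, a j = 0) →
    ∀ z : ℂ, y ≤ z.im → ‖Fn a z‖ ≤ B * Real.exp (-(2 * Real.pi * (z.im - y) * n))

/-- [STA] step 1: a zero of order `n` of `Fn h` at the cusp makes the first coefficients of `hs`
small. -/
def StaStmt : Prop :=
  ∀ (M : ℝ), 0 < M → ∀ (K : ℕ) (h hs : ℕ → ℂ), Pr M K h hs →
    ∀ (y B : ℝ), 0 < y → y ≤ 2 / (5 * M) → 0 ≤ B →
    (∀ z : ℂ, y ≤ z.im → ‖Fn h z‖ ≤ B) →
    ∀ n : ℕ, (∀ j < n, h j = 0) →
    ∀ j : ℕ, (j : ℝ) ≤ n / (10 * M) →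
      ‖hs j‖ ≤ (max 1 (1 / Real.sqrt M)) ^ K * B * Real.exp (-(3 / 5 * Real.pi * n / M))

/-- [STB] step 2: if the first coefficients of `hs` are small then `Fn h` is small on an arc. -/
def StbStmt : Prop :=
  ∀ (M : ℝ), 0 < M → ∀ (K : ℕ) (h hs : ℕ → ℂ), Pr M K h hs →
    ∀ (y B D T : ℝ), 0 < y → y ≤ 1 / 4 → y ≤ 1 / (2 * M) → 0 ≤ B → 0 ≤ D → 0 ≤ T →
    (∀ z : ℂ, y ≤ z.im → ‖Fn hs z‖ ≤ B) →
    (∀ j : ℕ, (j : ℝ) ≤ T → ‖hs j‖ ≤ D) →
    ∀ x : ℝ, x ^ 2 ≤ y / (2 * M) →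
      ‖Fn h (x + y * Complex.I)‖ ≤
        (1 / (Real.sqrt M * y)) ^ K * (2 * D + 4 * B * Real.exp (-(Real.pi * T)))

/-- [STC] step 3: two constants by rotations. -/
def StcStmt : Prop :=
  ∀ (h : ℕ → ℂ), Cv h → ∀ (y B E x1 : ℝ) (J : ℕ), 0 < y → 0 ≤ B → 0 ≤ E → 1 ≤ J →
    1 / (2 * (J : ℝ)) ≤ x1 →
    (∀ x : ℝ, ‖Fn h (x + y * Complex.I)‖ ≤ B) →
    (∀ x : ℝ, |x| ≤ x1 → ‖Fn h (x + y * Complex.I)‖ ≤ E) →
    ∀ n : ℕ, (∀ j < n, h j = 0) →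
      ‖h n‖ ^ J ≤ B ^ (J - 1) * E * Real.exp (2 * Real.pi * y * n * J)

/-- [REF] the reflection lemma: the first nonzero coefficient is exponentially small in the order
of vanishing, up to a constant to the power of the weight and the sup norm. -/
def RefStmt : Prop :=
  ∀ (M : ℝ), 0 < M → ∃ y c C : ℝ, 0 < y ∧ 0 < c ∧ 1 ≤ C ∧
    ∀ (K : ℕ) (h hs : ℕ → ℂ), Pr M K h hs → ∀ B : ℝ, 0 ≤ B →
      (∀ z : ℂ, y ≤ z.im → ‖Fn h z‖ ≤ B) → (∀ z : ℂ, y ≤ z.im → ‖Fn hs z‖ ≤ B) →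
      ∀ n : ℕ, (∀ j < n, h j = 0) → ‖h n‖ ≤ C ^ (K + 1) * B * Real.exp (-(c * n))

/-! ### Arithmetic modules -/

/-- The homogeneous polynomial of degree `2t` with coefficients `c (a, b)` at
`X0^a X1^b X2^(2t-a-b)`, `a, b <= t`. -/
def PP {R : Type*} [CommRing R] (t : ℕ) (c : Fin (t + 1) × Fin (t + 1) → R) :
    MvPolynomial (Fin 3) R :=
  ∑ l : Fin (t + 1) × Fin (t + 1), MvPolynomial.C (c l) *
    (MvPolynomial.X 0 ^ (l.1 : ℕ) * MvPolynomial.X 1 ^ (l.2 : ℕ) *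
      MvPolynomial.X 2 ^ (2 * t - (l.1 : ℕ) - (l.2 : ℕ)))

/-- The monomial power series `U0^a U1^b U2^(2t-a-b)`. -/
def Mo {R : Type*} [CommRing R] (t : ℕ) (u : Fin 3 → ℕ → R)
    (l : Fin (t + 1) × Fin (t + 1)) : PowerSeries R :=
  PowerSeries.mk (u 0) ^ (l.1 : ℕ) * PowerSeries.mk (u 1) ^ (l.2 : ℕ) *
    PowerSeries.mk (u 2) ^ (2 * t - (l.1 : ℕ) - (l.2 : ℕ))

/-- [EVA] the convergent power series are closed under sums and products and `Fn` is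
multiplicative and additive. -/
def EvaStmt : Prop :=
  (∀ c : ℂ, Cv (fun n => PowerSeries.coeff n (PowerSeries.C c))) ∧
  (∀ (c z : ℂ), Fn (fun n => PowerSeries.coeff n (PowerSeries.C c)) z = c) ∧
  (∀ f g : PowerSeries ℂ, Cv (fun n => PowerSeries.coeff n f) →
    Cv (fun n => PowerSeries.coeff n g) →
    (Cv (fun n => PowerSeries.coeff n (f + g)) ∧ Cv (fun n => PowerSeries.coeff n (f * g)) ∧
      ∀ z : ℂ, 0 < z.im →
        Fn (fun n => PowerSeries.coeff n (f + g)) z =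
          Fn (fun n => PowerSeries.coeff n f) z + Fn (fun n => PowerSeries.coeff n g) z ∧
        Fn (fun n => PowerSeries.coeff n (f * g)) z =
          Fn (fun n => PowerSeries.coeff n f) z * Fn (fun n => PowerSeries.coeff n g) z))

/-- [EVB] evaluation of a polynomial in three convergent power series. -/
def EvbStmt : Prop :=
  ∀ (v : Fin 3 → ℕ → ℂ), (∀ i, Cv (v i)) → ∀ P : MvPolynomial (Fin 3) ℂ,
    Cv (fun n => PowerSeries.coeff n (MvPolynomial.aeval (fun i => PowerSeries.mk (v i)) P)) ∧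
    ∀ z : ℂ, 0 < z.im →
      Fn (fun n => PowerSeries.coeff n (MvPolynomial.aeval (fun i => PowerSeries.mk (v i)) P)) z =
        MvPolynomial.eval (fun i => Fn (v i) z) P

/-- [MAP] a ring homomorphism passes through. -/
def MapStmt : Prop :=
  ∀ (R : Type) [CommRing R] (f : R →+* ℂ) (u : Fin 3 → ℕ → R) (P : MvPolynomial (Fin 3) R) (n : ℕ),
    f (PowerSeries.coeff n (MvPolynomial.aeval (fun i => PowerSeries.mk (u i)) P)) =
      PowerSeries.coeff n (MvPolynomial.aeval (fun i => PowerSeries.mk (fun m => f (u i m)))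
        (MvPolynomial.map f P))

/-- [POL] the polynomials `PP`. -/
def PolStmt : Prop :=
  (∀ (R : Type) [CommRing R] (t : ℕ) (c : Fin (t + 1) × Fin (t + 1) → R),
    (PP t c).IsHomogeneous (2 * t) ∧ (c ≠ 0 → PP t c ≠ 0) ∧
    (∀ f : R →+* ℂ, MvPolynomial.map f (PP t c) = PP t (fun l => f (c l))) ∧
    (∀ u : Fin 3 → ℕ → R, MvPolynomial.aeval (fun i => PowerSeries.mk (u i)) (PP t c) =
      ∑ l, PowerSeries.C (c l) * Mo t u l)) ∧
  (∀ (t : ℕ) (c : Fin (t + 1) × Fin (t + 1) → ℂ) (x : Fin 3 → ℂ) (m : ℂ),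
    MvPolynomial.eval (fun i => m * x i) (PP t c) =
      m ^ (2 * t) * MvPolynomial.eval x (PP t c)) ∧
  (∀ (t : ℕ) (c : Fin (t + 1) × Fin (t + 1) → ℂ) (x : Fin 3 → ℂ) (A B : ℝ), 0 ≤ A → 1 ≤ B →
    (∀ l, ‖c l‖ ≤ A) → (∀ i, ‖x i‖ ≤ B) →
    ‖MvPolynomial.eval x (PP t c)‖ ≤ ((t : ℝ) + 1) ^ 2 * A * B ^ (2 * t))

/-- [COE] bound of the coefficients of the monomials. -/
def CoeStmt : Prop :=
  ∀ (v : Fin 3 → ℕ → ℂ), (∀ i, Cv (v i)) → ∀ B : ℝ, 1 ≤ B →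
    (∀ i, ∀ z : ℂ, 1 ≤ z.im → ‖Fn (v i) z‖ ≤ B) →
    ∀ (t : ℕ) (l : Fin (t + 1) × Fin (t + 1)) (n : ℕ),
      ‖PowerSeries.coeff n (Mo t v l)‖ ≤ B ^ (2 * t) * Real.exp (2 * Real.pi * n)

/-- [SIE] Siegel's lemma in the form used here. -/
def SieStmt : Prop :=
  ∀ (L : Type) [Field L] [NumberField L] (C : ℝ) (lam : ℕ), 1 ≤ C → 1 ≤ lam →
    ∃ t0 : ℕ, ∀ t : ℕ, t0 ≤ t →
      ∀ a : Matrix (Fin (lam * t)) (Fin (t + 1) × Fin (t + 1)) (𝓞 L),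
        (∀ n l, house ((a n l : 𝓞 L) : L) ≤ C ^ t) →
        ∃ xi : Fin (t + 1) × Fin (t + 1) → 𝓞 L, xi ≠ 0 ∧ a.mulVec xi = 0 ∧
          ∀ l, house ((xi l : 𝓞 L) : L) ≤ Real.exp t

/-- THEOREM A. -/
def ThmA : Prop :=
  ∀ (L : Type) [Field L] [NumberField L] (M : ℝ) (w : ℕ), 0 < M →
    ∀ (u : Fin 3 → ℕ → 𝓞 L) (v : (L →+* ℂ) → Fin 3 → ℕ → ℂ),
      (∀ (s : L →+* ℂ) (i : Fin 3), Cv (fun n => s (u i n : L))) →
      (∀ (s : L →+* ℂ) (i : Fin 3), Cv (v s i)) →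
      (∀ (s : L →+* ℂ) (i : Fin 3) (z : ℂ), 0 < z.im →
        Fn (fun n => s (u i n : L)) (-1 / ((M : ℂ) * z)) =
          ((Real.sqrt M : ℂ) * z) ^ w * Fn (v s i) z) →
      ∃ (d : ℕ) (P : MvPolynomial (Fin 3) (𝓞 L)), P ≠ 0 ∧ P.IsHomogeneous d ∧
        ∀ (s : L →+* ℂ) (z : ℂ), 0 < z.im →
          MvPolynomial.eval (fun i => Fn (fun n => s (u i n : L)) z)
            (MvPolynomial.map (s.comp (algebraMap (𝓞 L) L)) P) = 0

end

end Pool.Agent.H97.ICA
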