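import Pool.Agent.H97.ICA.Defs

/-!
[EVA] Row of chapter 1 (THEOREM A) of THEOREM IC, MP_8e9775_nt.

PROOF. Write r = |exp (2 pi i z)| < 1 (for 0 < im z) and exp (2 pi i n z) = q^n with
q = exp (2 pi i z) (Complex.exp_nat_mul). Constants: coeff n (C c) = if n = 0 then c else 0
(finite support, tsum_eq_single). Sum: Summable.add, tsum_add. Product: coeff n (f*g) is the sum over
the antidiagonal (PowerSeries.coeff_mul); norm (coeff n (f g)) r^n <= sum over the antidiagonal of
(norm f_i r^i)(norm g_j r^j), summable by summable_norm_sum_mul_antidiagonal_of_summable_norm (or the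
real version summable_sum_mul_antidiagonal_of_summable_norm); value:
tsum_mul_tsum_eq_tsum_sum_antidiagonal_of_summable_norm. For the second statement (Fn of a constant
at ANY z): only the term n = 0 counts and exp 0 = 1.
-/

namespace Pool.Agent.H97.ICA

open Complex NumberField

noncomputable section

private theorem eva_exp (z : ℂ) (n : ℕ) :
    Complex.exp (2 * Real.pi * Complex.I * n * z) =
      Complex.exp (2 * Real.pi * Complex.I * z) ^ n := by
  rw [← Complex.exp_nat_mul]
  congr 1
  ring

private theorem eva_lt {z : ℂ} (hz : 0 < z.im) :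
    ‖Complex.exp (2 * Real.pi * Complex.I * z)‖ < 1 := by
  rw [Complex.norm_exp]
  have h : (2 * Real.pi * Complex.I * z : ℂ) = ((2 * Real.pi : ℝ) : ℂ) * (Complex.I * z) := by
    push_cast
    ring
  rw [h, Complex.re_ofReal_mul, Complex.I_mul_re, Real.exp_lt_one_iff]
  have := mul_pos (mul_pos (zero_lt_two : (0 : ℝ) < 2) Real.pi_pos) hz
  linarith

/-- the summability of the terms at a point `q` with `‖q‖ < 1` -/
private theorem eva_sum {a : ℕ → ℂ} (h : Cv a) {q : ℂ} (hq : ‖q‖ < 1) :
    Summable fun n : ℕ => ‖a n * q ^ n‖ := by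
  refine (h _ (norm_nonneg _) hq).congr fun n => ?_
  rw [norm_mul, norm_pow]

private theorem eva_Fn (a : ℕ → ℂ) (z : ℂ) :
    Fn a z = ∑' n : ℕ, a n * Complex.exp (2 * Real.pi * Complex.I * z) ^ n := by
  unfold Fn
  exact tsum_congr fun n => by rw [eva_exp]

private theorem eva_prod (f g : PowerSeries ℂ) (q : ℂ) (n : ℕ) :
    ∑ kl ∈ Finset.HasAntidiagonal.antidiagonal n, (PowerSeries.coeff kl.1 f * q ^ kl.1) *
      (PowerSeries.coeff kl.2 g * q ^ kl.2) = PowerSeries.coeff n (f * g) * q ^ n := by
  rw [PowerSeries.coeff_mul, Finset.sum_mul]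
  refine Finset.sum_congr rfl fun kl hkl => ?_
  have h := Finset.HasAntidiagonal.mem_antidiagonal.1 hkl
  rw [← h, pow_add]
  ring

theorem eva : EvaStmt := by
  refine ⟨?_, ?_, ?_⟩
  · intro c r _ _
    refine summable_of_ne_finset_zero (s := {0}) fun n hn => ?_
    have hn' : n ≠ 0 := fun h => hn (by rw [h]; exact Finset.mem_singleton_self 0)
    beta_reduce
    rw [PowerSeries.coeff_C, if_neg hn', norm_zero, zero_mul]
  · intro c z
    unfold Fn
    rw [tsum_eq_single 0]
    · beta_reduce
      rw [PowerSeries.coeff_C, if_pos rfl]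
      simp
    · intro n hn
      beta_reduce
      rw [PowerSeries.coeff_C, if_neg hn, zero_mul]
  · intro f g hf hg
    refine ⟨?_, ?_, ?_⟩
    · intro r hr0 hr1
      refine Summable.of_nonneg_of_le (fun n => by positivity) (fun n => ?_)
        ((hf r hr0 hr1).add (hg r hr0 hr1))
      beta_reduce
      rw [map_add, ← add_mul]
      exact mul_le_mul_of_nonneg_right (norm_add_le _ _) (by positivity)
    · intro r hr0 hr1
      have hq : ‖(r : ℂ)‖ < 1 := by
        rw [Complex.norm_real, Real.norm_eq_abs, abs_of_nonneg hr0]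
        exact hr1
      refine (summable_norm_sum_mul_antidiagonal_of_summable_norm (eva_sum hf hq)
        (eva_sum hg hq)).congr fun n => ?_
      rw [eva_prod, norm_mul, norm_pow, Complex.norm_real, Real.norm_eq_abs, abs_of_nonneg hr0]
    · intro z hz
      have hq := eva_lt hz
      refine ⟨?_, ?_⟩
      · rw [eva_Fn, eva_Fn, eva_Fn, ← Summable.tsum_add (eva_sum hf hq).of_norm
          (eva_sum hg hq).of_norm]
        refine tsum_congr fun n => ?_
        rw [map_add, add_mul]
      · rw [eva_Fn, eva_Fn, eva_Fn, tsum_mul_tsum_eq_tsum_sum_antidiagonal_of_summable_norm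
          (eva_sum hf hq) (eva_sum hg hq)]
        refine tsum_congr fun n => ?_
        rw [eva_prod]

end

end Pool.Agent.H97.ICA
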