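import Pool.Agent.H97.ICA.Defs

/-!
[EVB] Row of chapter 1 (THEOREM A) of THEOREM IC, MP_8e9775_nt.

PROOF. MvPolynomial.induction_on P: constants (aeval_C, algebraMap of PowerSeries is C), sums, and
products with X i (aeval_X, coeff of PowerSeries.mk (v i) is v i). Prove both claims together.
-/

namespace Pool.Agent.H97.ICA

open Complex NumberField

noncomputable section

theorem evb (hV : EvaStmt) : EvbStmt := by
  obtain ⟨hC, hCF, hop⟩ := hV
  intro v hv P
  induction P using MvPolynomial.induction_on with
  | C a =>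
    have e : MvPolynomial.aeval (fun i => PowerSeries.mk (v i))
        (MvPolynomial.C a : MvPolynomial (Fin 3) ℂ) = PowerSeries.C a := by
      rw [MvPolynomial.aeval_C]
      rfl
    simp only [e]
    exact ⟨hC a, fun z _ => by rw [hCF, MvPolynomial.eval_C]⟩
  | add p q hp hq =>
    simp only [map_add (MvPolynomial.aeval fun i => PowerSeries.mk (v i))]
    obtain ⟨h1, -, h3⟩ := hop _ _ hp.1 hq.1
    exact ⟨h1, fun z hz => by rw [(h3 z hz).1, hp.2 z hz, hq.2 z hz, map_add]⟩
  | mul_X p i hp =>
    simp only [map_mul (MvPolynomial.aeval fun i => PowerSeries.mk (v i)), MvPolynomial.aeval_X]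
    have e : (fun n => PowerSeries.coeff n (PowerSeries.mk (v i))) = v i := by
      funext n
      exact PowerSeries.coeff_mk n _
    have h0 : Cv (fun n => PowerSeries.coeff n (PowerSeries.mk (v i))) := by
      rw [e]
      exact hv i
    obtain ⟨-, h2, h3⟩ := hop _ _ hp.1 h0
    refine ⟨h2, fun z hz => ?_⟩
    rw [(h3 z hz).2, hp.2 z hz, e, map_mul, MvPolynomial.eval_X]

end

end Pool.Agent.H97.ICA
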