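import Pool.Agent.H97.ICA.Defs

/-!
[FIN] Row of chapter 1 (THEOREM A) of THEOREM IC, MP_8e9775_nt. Assembly.

PROOF. y, c, C from hR M. The set of (s, i) is finite, so (hE majorants) there is By >= 1 with
norm (Fn (s u_i) z) <= By and norm (Fn (v s i) z) <= By for all s, i, im z >= y, and B1 >= 1 with
norm (Fn (s u_i) z) <= B1 for im z >= 1. Choose lam >= 1 natural with
c lam >= 2 w log C + 2 log By + 2 (so (C^(2w) By^2 exp (1 - c lam)) <= exp (-1)).
hS with C_SIE = B1^2 exp (2 pi lam): t0. Take t >= t0 so large that C (t+1)^2 exp (-t) < 1.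
Matrix a n l = coeff n (Mo t u l) in O_L; house <= B1^(2t) exp (2 pi n) <= C_SIE^t by hCo for every s
(house = sup of the norms of the embeddings; map f (coeff n (Mo t u l)) = coeff n (Mo t (f u) l):
from hMp for the monomial, or PowerSeries.coeff_map and map_mul, map_pow). xi from hS; P = PP t xi,
d = 2t, P nonzero and homogeneous by hP. Let H = aeval (mk u_i) P in PowerSeries (O_L), h_n = coeff n H:
h_n = (a.mulVec xi) n = 0 for n < lam t (hP, fourth part).
CLAIM h_n = 0 for all n. Otherwise let n be minimal with h_n nonzero (Nat.find), n >= lam t.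
By Mathlib NumberField.exists_conjugate_one_le_norm there is s with norm (s h_n) >= 1. For this s,
h = fun n => s h_n = coeff n (aeval (mk (s u_i)) (map s P)) (hMp, with the ring homomorphism
s.comp (algebraMap (O_L) L)), hs = coeff n (aeval (mk (v s i)) (map s P)); map s P = PP t (s xi).
Pr M (w (2t)) h hs: hB gives Cv and Fn = eval; fe by hP fifth part with m = (sqrt M z)^w.
Bound on im z >= y: (t+1)^2 exp t By^(2t) (hP, sixth part, norm (s xi_l) <= house xi_l <= exp t). hR:
1 <= norm (h n) <= C^(2tw+1) (t+1)^2 exp t By^(2t) exp (-c n) <= C (t+1)^2 (C^(2w) By^2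
exp (1 - c lam))^t <= C (t+1)^2 exp (-t) < 1: contradiction.
So H = 0, and by hMp, hB: eval (Fn (s u_i) z) (map s P) = Fn (0) z = 0 for every s and im z > 0.
-/

namespace Pool.Agent.H97.ICA

open Complex NumberField

noncomputable section

/-- the majorant at height `y` -/
private def mj (a : ℕ → ℂ) (y : ℝ) : ℝ := ∑' n : ℕ, ‖a n‖ * Real.exp (-(2 * Real.pi * y * n))

private theorem mj_nonneg (a : ℕ → ℂ) (y : ℝ) : 0 ≤ mj a y :=
  tsum_nonneg fun _ => mul_nonneg (norm_nonneg _) (Real.exp_nonneg _)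

private theorem exists_t (C : ℝ) (hC : 1 ≤ C) (t0 : ℕ) : ∃ t : ℕ, t0 ≤ t ∧
    C * ((t : ℝ) + 1) ^ 2 * Real.exp (-t) < 1 := by
  have h1 := Real.tendsto_pow_mul_exp_neg_atTop_nhds_zero 2
  have h2 : Filter.Tendsto (fun t : ℕ => ((t : ℝ) + 1)) Filter.atTop Filter.atTop :=
    Filter.tendsto_atTop_add_const_right _ _ tendsto_natCast_atTop_atTop
  have h3 := h1.comp h2
  have hC0 : 0 < C := by linarith
  have h4 : 0 < 1 / (C * Real.exp 1) := by positivity
  obtain ⟨t, ht, ht0⟩ := ((h3.eventually_lt_const h4).and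
    (Filter.eventually_ge_atTop t0)).exists
  refine ⟨t, ht0, ?_⟩
  simp only [Function.comp_apply] at ht
  rw [lt_div_iff₀ (by positivity)] at ht
  have e1 : Real.exp (-(t : ℝ)) = Real.exp (-((t : ℝ) + 1)) * Real.exp 1 := by
    rw [← Real.exp_add]
    congr 1
    ring
  rw [e1]
  calc C * ((t : ℝ) + 1) ^ 2 * (Real.exp (-((t : ℝ) + 1)) * Real.exp 1)
      = ((t : ℝ) + 1) ^ 2 * Real.exp (-((t : ℝ) + 1)) * (C * Real.exp 1) := by ring
    _ < 1 := ht

private theorem map_mk {R : Type} [CommRing R] (f : R →+* ℂ) (u : ℕ → R) :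
    PowerSeries.map f (PowerSeries.mk u) = PowerSeries.mk (fun m => f (u m)) := by
  ext n
  simp

private theorem map_Mo {R : Type} [CommRing R] (f : R →+* ℂ) (t : ℕ) (u : Fin 3 → ℕ → R)
    (l : Fin (t + 1) × Fin (t + 1)) (n : ℕ) :
    f (PowerSeries.coeff n (Mo t u l)) = PowerSeries.coeff n (Mo t (fun i m => f (u i m)) l) := by
  rw [← PowerSeries.coeff_map]
  simp only [Mo, map_mul, map_pow, map_mk]

private theorem im_pos {M : ℝ} (hM : 0 < M) {z : ℂ} (hz : 0 < z.im) :
    0 < (-1 / ((M : ℂ) * z)).im := by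
  have h1 : (-1 / ((M : ℂ) * z)) = ((-(1 / M) : ℝ) : ℂ) * z⁻¹ := by
    push_cast
    field_simp
  have hz0 : z ≠ 0 := by
    rintro rfl
    simp at hz
  rw [h1, Complex.im_ofReal_mul, Complex.inv_im]
  have h2 : 0 < Complex.normSq z := Complex.normSq_pos.2 hz0
  have h3 : -(1 / M) * (-z.im / Complex.normSq z) = (1 / M) * (z.im / Complex.normSq z) := by ring
  rw [h3]
  positivity

private theorem Fn_zero (z : ℂ) : Fn (fun _ => 0) z = 0 := by
  simp [Fn]

/-- the final inequality -/
private theorem fin_ineq (C By c : ℝ) (w lam t n : ℕ) (hC : 1 ≤ C) (hBy : 1 ≤ By) (hc : 0 < c)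
    (hlam : 2 * w * Real.log C + 2 * Real.log By + 2 ≤ c * lam) (hn : lam * t ≤ n) :
    C ^ (w * (2 * t) + 1) * (((t : ℝ) + 1) ^ 2 * Real.exp t * By ^ (2 * t)) *
      Real.exp (-(c * n)) ≤ C * ((t : ℝ) + 1) ^ 2 * Real.exp (-t) := by
  have hC0 : 0 < C := by linarith
  have hBy0 : 0 < By := by linarith
  have e1 : C ^ (w * (2 * t)) = Real.exp (w * (2 * t) * Real.log C) := by
    rw [← Real.exp_log hC0, ← Real.exp_nat_mul, Real.log_exp]
    push_cast
    rfl
  have e2 : By ^ (2 * t) = Real.exp (2 * t * Real.log By) := by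
    rw [← Real.exp_log hBy0, ← Real.exp_nat_mul, Real.log_exp]
    push_cast
    rfl
  have e3 : C ^ (w * (2 * t) + 1) * (((t : ℝ) + 1) ^ 2 * Real.exp t * By ^ (2 * t)) *
      Real.exp (-(c * n)) = C * ((t : ℝ) + 1) ^ 2 *
        Real.exp (w * (2 * t) * Real.log C + t + 2 * t * Real.log By + -(c * n)) := by
    rw [Real.exp_add, Real.exp_add, Real.exp_add, ← e1, ← e2, pow_succ]
    ring
  rw [e3]
  apply mul_le_mul_of_nonneg_left _ (by positivity)
  apply Real.exp_le_exp.2
  have h1 : c * (lam * t) ≤ c * n := by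
    apply mul_le_mul_of_nonneg_left _ hc.le
    exact_mod_cast hn
  have h2 : (2 * w * Real.log C + 2 * Real.log By + 2) * t ≤ c * lam * t :=
    mul_le_mul_of_nonneg_right hlam (Nat.cast_nonneg t)
  nlinarith

theorem thmA_of (hE : ExaStmt) (hR : RefStmt) (hB : EvbStmt) (hMp : MapStmt) (hP : PolStmt)
    (hCo : CoeStmt) (hS : SieStmt) : ThmA := by
  classical
  intro L _ _ M w hM u v hcu hcv hfe
  obtain ⟨y, c, C, hy, hc, hC, hRef⟩ := hR M hM
  -- uniform bounds
  have bd : ∀ y0 : ℝ, 0 < y0 → ∃ B : ℝ, 1 ≤ B ∧ ∀ (s : L →+* ℂ) (i : Fin 3) (z : ℂ),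
      y0 ≤ z.im → ‖Fn (fun n => s (u i n : L)) z‖ ≤ B ∧ ‖Fn (v s i) z‖ ≤ B := by
    intro y0 hy0
    have hnn : ∀ (s : L →+* ℂ) (i : Fin 3), 0 ≤ mj (fun n => s (u i n : L)) y0 + mj (v s i) y0 :=
      fun s i => add_nonneg (mj_nonneg _ _) (mj_nonneg _ _)
    refine ⟨1 + ∑ s : L →+* ℂ, ∑ i : Fin 3, (mj (fun n => s (u i n : L)) y0 + mj (v s i) y0),
      ?_, ?_⟩
    · have := Finset.sum_nonneg fun (s : L →+* ℂ) (_ : s ∈ Finset.univ) =>
        Finset.sum_nonneg fun (i : Fin 3) (_ : i ∈ Finset.univ) => hnn s i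
      linarith
    · intro s i z hz
      have h1 : mj (fun n => s (u i n : L)) y0 + mj (v s i) y0 ≤
          ∑ s : L →+* ℂ, ∑ i : Fin 3, (mj (fun n => s (u i n : L)) y0 + mj (v s i) y0) :=
        (Finset.single_le_sum (f := fun i : Fin 3 => mj (fun n => s (u i n : L)) y0 + mj (v s i) y0)
          (fun i _ => hnn s i) (Finset.mem_univ i)).trans
        (Finset.single_le_sum (f := fun s : L →+* ℂ => ∑ i : Fin 3,
          (mj (fun n => s (u i n : L)) y0 + mj (v s i) y0))
          (fun s _ => Finset.sum_nonneg fun i _ => hnn s i) (Finset.mem_univ s))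
      have h2 := (hE _ (hcu s i) z y0 hy0 hz).2.1
      have h3 := (hE _ (hcv s i) z y0 hy0 hz).2.1
      have h4 := mj_nonneg (fun n => s (u i n : L)) y0
      have h5 := mj_nonneg (v s i) y0
      constructor
      · refine h2.trans ?_
        change mj (fun n => s (u i n : L)) y0 ≤ _
        linarith
      · refine h3.trans ?_
        change mj (v s i) y0 ≤ _
        linarith
  obtain ⟨By, hBy, hBy'⟩ := bd y hy
  obtain ⟨B1, hB1, hB1'⟩ := bd 1 one_pos
  obtain ⟨lam0, hlam0⟩ := exists_nat_ge ((2 * w * Real.log C + 2 * Real.log By + 2) / c)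
  set lam : ℕ := max lam0 1 with hlamdef
  have hlam1 : 1 ≤ lam := le_max_right _ _
  have hlam : 2 * w * Real.log C + 2 * Real.log By + 2 ≤ c * lam := by
    rw [div_le_iff₀ hc] at hlam0
    have h1 : (lam0 : ℝ) ≤ lam := by exact_mod_cast le_max_left _ _
    nlinarith
  have hCS : 1 ≤ B1 ^ 2 * Real.exp (2 * Real.pi * lam) := by
    have h1 : (1 : ℝ) ≤ B1 ^ 2 := one_le_pow₀ hB1
    have h2 : (1 : ℝ) ≤ Real.exp (2 * Real.pi * lam) := by
      apply Real.one_le_exp
      have := Real.pi_pos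
      positivity
    nlinarith
  obtain ⟨t0, ht0⟩ := hS L (B1 ^ 2 * Real.exp (2 * Real.pi * lam)) lam hCS hlam1
  obtain ⟨t, ht, htl⟩ := exists_t C hC t0
  obtain ⟨xi, hxi0, hxim, hxih⟩ := ht0 t ht
    (fun n l => PowerSeries.coeff (n : ℕ) (Mo t u l)) (by
      intro n l
      have hnn : 0 ≤ (B1 ^ 2 * Real.exp (2 * Real.pi * lam)) ^ t := by positivity
      rw [house, pi_norm_le_iff_of_nonneg hnn]
      intro s
      have h1 := hCo (fun i m => s (u i m : L)) (fun i => hcu s i) B1 hB1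
        (fun i z hz => (hB1' s i z hz).1) t l n
      have h2 := map_Mo (s.comp (algebraMap (𝓞 L) L)) t u l n
      have h3 : (canonicalEmbedding L) ((PowerSeries.coeff (n : ℕ) (Mo t u l) : 𝓞 L) : L) s =
          PowerSeries.coeff (n : ℕ) (Mo t (fun i m => s (u i m : L)) l) := h2
      rw [h3]
      refine h1.trans ?_
      rw [mul_pow, ← pow_mul, ← Real.exp_nat_mul]
      apply mul_le_mul_of_nonneg_left _ (by positivity)
      apply Real.exp_le_exp.2
      have h4 : ((n : ℕ) : ℝ) ≤ lam * t := by exact_mod_cast n.2.le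
      have := Real.pi_pos
      nlinarith)
  have hP1 := hP.1 (𝓞 L) t xi
  refine ⟨2 * t, PP t xi, hP1.2.1 hxi0, hP1.1, ?_⟩
  -- the first coefficients vanish
  have hfirst : ∀ j < lam * t, PowerSeries.coeff j
      (MvPolynomial.aeval (fun i => PowerSeries.mk (u i)) (PP t xi)) = 0 := by
    intro j hj
    rw [hP1.2.2.2 u, map_sum]
    have h1 := congrFun hxim ⟨j, hj⟩
    simp only [Matrix.mulVec, dotProduct, Pi.zero_apply] at h1
    rw [← h1]
    refine Finset.sum_congr rfl fun l _ => ?_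
    rw [PowerSeries.coeff_C_mul, mul_comm]
  -- all coefficients vanish
  have hall : ∀ n, PowerSeries.coeff n
      (MvPolynomial.aeval (fun i => PowerSeries.mk (u i)) (PP t xi)) = 0 := by
    by_contra hcon
    push Not at hcon
    set n := Nat.find hcon with hn
    have hn0 := Nat.find_spec hcon
    rw [← hn] at hn0
    have hmin : ∀ j < n, PowerSeries.coeff j
        (MvPolynomial.aeval (fun i => PowerSeries.mk (u i)) (PP t xi)) = 0 := by
      intro j hj
      by_contra h
      exact Nat.find_min hcon hj h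
    have hnl : lam * t ≤ n := by
      by_contra h
      exact hn0 (hfirst n (not_le.1 h))
    obtain ⟨s, hs⟩ := exists_conjugate_one_le_norm hn0
    set f : 𝓞 L →+* ℂ := s.comp (algebraMap (𝓞 L) L) with hf
    have hmapP : MvPolynomial.map f (PP t xi) = PP t (fun l => f (xi l)) := hP1.2.2.1 f
    have hxb : ∀ l, ‖f (xi l)‖ ≤ Real.exp t := fun l =>
      (norm_embedding_le_house ((xi l : 𝓞 L) : L) s).trans (hxih l)
    set h : ℕ → ℂ := fun m => PowerSeries.coeff m (MvPolynomial.aeval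
      (fun i => PowerSeries.mk (fun m => f (u i m))) (MvPolynomial.map f (PP t xi))) with hh
    set hs' : ℕ → ℂ := fun m => PowerSeries.coeff m (MvPolynomial.aeval
      (fun i => PowerSeries.mk (v s i)) (MvPolynomial.map f (PP t xi))) with hhs
    have hhc : ∀ m, f (PowerSeries.coeff m
        (MvPolynomial.aeval (fun i => PowerSeries.mk (u i)) (PP t xi))) = h m :=
      fun m => hMp (𝓞 L) f u (PP t xi) m
    have q1 := hB (fun i m => f (u i m)) (fun i => hcu s i) (MvPolynomial.map f (PP t xi))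
    have q2 := hB (v s) (fun i => hcv s i) (MvPolynomial.map f (PP t xi))
    have hpr : Pr M (w * (2 * t)) h hs' := by
      refine ⟨q1.1, q2.1, fun z hz => ?_⟩
      rw [hh, hhs, q1.2 _ (im_pos hM hz), q2.2 z hz, hmapP]
      have h1 : (fun i => Fn (fun m => f (u i m)) (-1 / ((M : ℂ) * z))) =
          fun i => ((Real.sqrt M : ℂ) * z) ^ w * Fn (v s i) z := by
        funext i
        exact hfe s i z hz
      rw [h1, hP.2.1, ← pow_mul]
    have hbd : ∀ x : Fin 3 → ℂ, (∀ i, ‖x i‖ ≤ By) →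
        ‖MvPolynomial.eval x (MvPolynomial.map f (PP t xi))‖ ≤
          ((t : ℝ) + 1) ^ 2 * Real.exp t * By ^ (2 * t) := by
      intro x hx
      rw [hmapP]
      exact hP.2.2 t (fun l => f (xi l)) x (Real.exp t) By (Real.exp_nonneg _) hBy hxb hx
    have key := hRef (w * (2 * t)) h hs' hpr (((t : ℝ) + 1) ^ 2 * Real.exp t * By ^ (2 * t))
      (by positivity)
      (by
        intro z hz
        rw [hh, q1.2 z (hy.trans_le hz)]
        exact hbd _ fun i => (hBy' s i z hz).1)
      (by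
        intro z hz
        rw [hhs, q2.2 z (hy.trans_le hz)]
        exact hbd _ fun i => (hBy' s i z hz).2)
      n
      (by
        intro j hj
        rw [← hhc j, hmin j hj, map_zero])
    have h1 : 1 ≤ ‖h n‖ := by
      rw [← hhc n]
      exact hs
    have h2 := fin_ineq C By c w lam t n hC hBy hc hlam hnl
    linarith
  -- conclusion
  intro s z hz
  set f : 𝓞 L →+* ℂ := s.comp (algebraMap (𝓞 L) L) with hf
  have q1 := hB (fun i m => f (u i m)) (fun i => hcu s i) (MvPolynomial.map f (PP t xi))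
  have q2 := q1.2 z hz
  have q3 : (fun n => PowerSeries.coeff n (MvPolynomial.aeval
      (fun i => PowerSeries.mk (fun m => f (u i m))) (MvPolynomial.map f (PP t xi)))) =
      fun _ => (0 : ℂ) := by
    funext n
    rw [← hMp (𝓞 L) f u (PP t xi) n, hall n, map_zero]
  rw [q3, Fn_zero] at q2
  exact q2.symm

end

end Pool.Agent.H97.ICA
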