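import Pool.Agent.H97.ICA.Main

/-!
THEOREM A, strengthened (chapter 1 of THEOREM IC, MP_8e9775_nt): only ONE embedding needs the
reflection; for the other embeddings the series only have to converge in the open unit disc (that is,
the house of the coefficients grows subexponentially). The lower bound for the coefficient comes from
the norm: 1 <= norm (s0 h) * house h ^ (D - 1).
-/

namespace Pool.Agent.H97.ICA

open Complex NumberField

noncomputable section

/-- the majorant at height `y` -/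
private def mj (a : ℕ → ℂ) (y : ℝ) : ℝ := ∑' n : ℕ, ‖a n‖ * Real.exp (-(2 * Real.pi * y * n))

private theorem mj_nonneg (a : ℕ → ℂ) (y : ℝ) : 0 ≤ mj a y :=
  tsum_nonneg fun _ => mul_nonneg (norm_nonneg _) (Real.exp_nonneg _)

private theorem exists_t' (C : ℝ) (hC : 1 ≤ C) (D : ℕ) (t0 : ℕ) : ∃ t : ℕ, t0 ≤ t ∧
    C * ((t : ℝ) + 1) ^ (2 * D) * Real.exp (-t) < 1 := by
  have h1 := Real.tendsto_pow_mul_exp_neg_atTop_nhds_zero (2 * D)
  have h2 : Filter.Tendsto (fun t : ℕ => ((t : ℝ) + 1)) Filter.atTop Filter.atTop :=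
    Filter.tendsto_atTop_add_const_right _ _ tendsto_natCast_atTop_atTop
  have h3 := h1.comp h2
  have hC0 : 0 < C := by linarith
  have h4 : 0 < 1 / (C * Real.exp 1) := by positivity
  obtain ⟨t, ht, ht0⟩ := ((h3.eventually_lt_const h4).and
    (Filter.eventually_ge_atTop t0)).exists
  refine ⟨t, ht0, ?_⟩
  simp only [Function.comp_apply] at ht
  rw [lt_div_iff₀ (by positivity)] at ht
  have e1 : Real.exp (-(t : ℝ)) = Real.exp (-((t : ℝ) + 1)) * Real.exp 1 := by
    rw [← Real.exp_add]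
    congr 1
    ring
  rw [e1]
  calc C * ((t : ℝ) + 1) ^ (2 * D) * (Real.exp (-((t : ℝ) + 1)) * Real.exp 1)
      = ((t : ℝ) + 1) ^ (2 * D) * Real.exp (-((t : ℝ) + 1)) * (C * Real.exp 1) := by ring
    _ < 1 := ht

private theorem map_mk {R : Type} [CommRing R] (f : R →+* ℂ) (u : ℕ → R) :
    PowerSeries.map f (PowerSeries.mk u) = PowerSeries.mk (fun m => f (u m)) := by
  ext n
  simp

private theorem map_Mo {R : Type} [CommRing R] (f : R →+* ℂ) (t : ℕ) (u : Fin 3 → ℕ → R)
    (l : Fin (t + 1) × Fin (t + 1)) (n : ℕ) :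
    f (PowerSeries.coeff n (Mo t u l)) = PowerSeries.coeff n (Mo t (fun i m => f (u i m)) l) := by
  rw [← PowerSeries.coeff_map]
  simp only [Mo, map_mul, map_pow, map_mk]

private theorem im_pos {M : ℝ} (hM : 0 < M) {z : ℂ} (hz : 0 < z.im) :
    0 < (-1 / ((M : ℂ) * z)).im := by
  have h1 : (-1 / ((M : ℂ) * z)) = ((-(1 / M) : ℝ) : ℂ) * z⁻¹ := by
    push_cast
    field_simp
  have hz0 : z ≠ 0 := by
    rintro rfl
    simp at hz
  rw [h1, Complex.im_ofReal_mul, Complex.inv_im]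
  have h2 : 0 < Complex.normSq z := Complex.normSq_pos.2 hz0
  have h3 : -(1 / M) * (-z.im / Complex.normSq z) = (1 / M) * (z.im / Complex.normSq z) := by ring
  rw [h3]
  positivity

private theorem Fn_zero (z : ℂ) : Fn (fun _ => 0) z = 0 := by
  simp [Fn]

/-- THEOREM A, ONE EMBEDDING: only `s0` has the reflection, the others only converge. -/
def ThmA1 : Prop :=
  ∀ (L : Type) [Field L] [NumberField L] (s0 : L →+* ℂ) (M : ℝ) (w : ℕ), 0 < M →
    ∀ (u : Fin 3 → ℕ → 𝓞 L) (v : Fin 3 → ℕ → ℂ),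
      (∀ (s : L →+* ℂ) (i : Fin 3), Cv (fun n => s (u i n : L))) →
      (∀ (i : Fin 3), Cv (v i)) →
      (∀ (i : Fin 3) (z : ℂ), 0 < z.im →
        Fn (fun n => s0 (u i n : L)) (-1 / ((M : ℂ) * z)) =
          ((Real.sqrt M : ℂ) * z) ^ w * Fn (v i) z) →
      ∃ (d : ℕ) (P : MvPolynomial (Fin 3) (𝓞 L)), P ≠ 0 ∧ P.IsHomogeneous d ∧
        ∀ (s : L →+* ℂ) (z : ℂ), 0 < z.im →
          MvPolynomial.eval (fun i => Fn (fun n => s (u i n : L)) z)
            (MvPolynomial.map (s.comp (algebraMap (𝓞 L) L)) P) = 0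

/-- the final inequality -/
private theorem fin_ineq' (C B c y1 : ℝ) (w lam t n D : ℕ) (hC : 1 ≤ C) (hB : 1 ≤ B) (hc : 0 < c)
    (hD : 1 ≤ D) (hy1 : 0 ≤ y1) (hy1' : 2 * Real.pi * y1 * (D - 1 : ℕ) ≤ c / 2)
    (hlam : 2 * w * Real.log C + D + 2 * D * Real.log B + 1 ≤ c / 2 * lam) (hn : lam * t ≤ n) :
    C ^ (w * (2 * t) + 1) * (((t : ℝ) + 1) ^ 2 * Real.exp t * B ^ (2 * t)) *
      Real.exp (-(c * n)) *
      ((((t : ℝ) + 1) ^ 2 * Real.exp t * B ^ (2 * t)) * Real.exp (2 * Real.pi * y1 * n)) ^ (D - 1)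
      ≤ C * ((t : ℝ) + 1) ^ (2 * D) * Real.exp (-t) := by
  have hC0 : 0 < C := by linarith
  have hB0 : 0 < B := by linarith
  have e1 : C ^ (w * (2 * t)) = Real.exp (w * (2 * t) * Real.log C) := by
    rw [← Real.exp_log hC0, ← Real.exp_nat_mul, Real.log_exp]
    push_cast
    rfl
  have e2 : B ^ (2 * t) = Real.exp (2 * t * Real.log B) := by
    rw [← Real.exp_log hB0, ← Real.exp_nat_mul, Real.log_exp]
    push_cast
    rfl
  obtain ⟨E, rfl⟩ : ∃ E, D = E + 1 := ⟨D - 1, by omega⟩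
  simp only [Nat.add_sub_cancel] at hy1' ⊢
  have e3 : C ^ (w * (2 * t) + 1) * (((t : ℝ) + 1) ^ 2 * Real.exp t * B ^ (2 * t)) *
      Real.exp (-(c * n)) *
      ((((t : ℝ) + 1) ^ 2 * Real.exp t * B ^ (2 * t)) * Real.exp (2 * Real.pi * y1 * n)) ^ E =
      C * ((t : ℝ) + 1) ^ (2 * (E + 1)) *
        Real.exp (w * (2 * t) * Real.log C + (t + 2 * t * Real.log B) + -(c * n) +
          E * (t + 2 * t * Real.log B + 2 * Real.pi * y1 * n)) := by
    rw [Real.exp_add, Real.exp_add, Real.exp_add, ← e1, Real.exp_nat_mul,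
      Real.exp_add (t + 2 * t * Real.log B), Real.exp_add (t : ℝ), ← e2, pow_succ, mul_pow, mul_pow,
      mul_pow, mul_pow, mul_pow, ← pow_mul, mul_add 2 E 1, pow_add]
    ring
  rw [e3]
  apply mul_le_mul_of_nonneg_left _ (by positivity)
  apply Real.exp_le_exp.2
  have h1 : c / 2 * (lam * t) ≤ c / 2 * n := by
    apply mul_le_mul_of_nonneg_left _ (by positivity)
    exact_mod_cast hn
  have h2 : (2 * w * Real.log C + (E + 1 : ℕ) + 2 * (E + 1 : ℕ) * Real.log B + 1) * t ≤
      c / 2 * lam * t :=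
    mul_le_mul_of_nonneg_right hlam (Nat.cast_nonneg t)
  have h3 : 2 * Real.pi * y1 * E * n ≤ c / 2 * n :=
    mul_le_mul_of_nonneg_right hy1' (Nat.cast_nonneg n)
  push_cast at h2
  nlinarith

theorem thmA1 : ThmA1 := by
  classical
  have hE := exa
  have hR := refl_lemma
  have hB := evb eva
  have hMp := mp
  have hP := pol
  have hCa := cau exa
  have hCo := coe (evb eva) (cau exa)
  have hS := sie
  intro L _ _ s0 M w hM u v hcu hcv hfe
  obtain ⟨y, c, C, hy, hc, hC, hRef⟩ := hR M hM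
  set D : ℕ := Module.finrank ℚ L with hDdef
  have hD1 : 1 ≤ D := Module.finrank_pos
  -- uniform bounds
  have bd : ∀ y0 : ℝ, 0 < y0 → ∃ B : ℝ, 1 ≤ B ∧ ∀ (s : L →+* ℂ) (i : Fin 3) (z : ℂ),
      y0 ≤ z.im → ‖Fn (fun n => s (u i n : L)) z‖ ≤ B ∧ ‖Fn (v i) z‖ ≤ B := by
    intro y0 hy0
    have hnn : ∀ (s : L →+* ℂ) (i : Fin 3), 0 ≤ mj (fun n => s (u i n : L)) y0 + mj (v i) y0 :=
      fun s i => add_nonneg (mj_nonneg _ _) (mj_nonneg _ _)
    refine ⟨1 + ∑ s : L →+* ℂ, ∑ i : Fin 3, (mj (fun n => s (u i n : L)) y0 + mj (v i) y0),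
      ?_, ?_⟩
    · have := Finset.sum_nonneg fun (s : L →+* ℂ) (_ : s ∈ Finset.univ) =>
        Finset.sum_nonneg fun (i : Fin 3) (_ : i ∈ Finset.univ) => hnn s i
      linarith
    · intro s i z hz
      have h1 : mj (fun n => s (u i n : L)) y0 + mj (v i) y0 ≤
          ∑ s : L →+* ℂ, ∑ i : Fin 3, (mj (fun n => s (u i n : L)) y0 + mj (v i) y0) :=
        (Finset.single_le_sum (f := fun i : Fin 3 => mj (fun n => s (u i n : L)) y0 + mj (v i) y0)
          (fun i _ => hnn s i) (Finset.mem_univ i)).trans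
        (Finset.single_le_sum (f := fun s : L →+* ℂ => ∑ i : Fin 3,
          (mj (fun n => s (u i n : L)) y0 + mj (v i) y0))
          (fun s _ => Finset.sum_nonneg fun i _ => hnn s i) (Finset.mem_univ s))
      have h2 := (hE _ (hcu s i) z y0 hy0 hz).2.1
      have h3 := (hE _ (hcv i) z y0 hy0 hz).2.1
      have h4 := mj_nonneg (fun n => s (u i n : L)) y0
      have h5 := mj_nonneg (v i) y0
      constructor
      · refine h2.trans ?_
        change mj (fun n => s (u i n : L)) y0 ≤ _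
        linarith
      · refine h3.trans ?_
        change mj (v i) y0 ≤ _
        linarith
  set y1 : ℝ := min y (c / (4 * Real.pi * D)) with hy1def
  have hpi := Real.pi_pos
  have hD0 : (0 : ℝ) < D := by exact_mod_cast hD1
  have hy1 : 0 < y1 := lt_min hy (by positivity)
  have hy1y : y1 ≤ y := min_le_left _ _
  have hy1c : 2 * Real.pi * y1 * (D - 1 : ℕ) ≤ c / 2 := by
    have h1 : y1 ≤ c / (4 * Real.pi * D) := min_le_right _ _
    have h2 : ((D - 1 : ℕ) : ℝ) ≤ D := by exact_mod_cast Nat.sub_le D 1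
    calc 2 * Real.pi * y1 * (D - 1 : ℕ) ≤ 2 * Real.pi * (c / (4 * Real.pi * D)) * D := by gcongr
      _ = c / 2 := by field_simp; ring
  obtain ⟨By, hBy, hBy'⟩ := bd y1 hy1
  obtain ⟨B1, hB1, hB1'⟩ := bd 1 one_pos
  obtain ⟨lam0, hlam0⟩ := exists_nat_ge
    ((2 * w * Real.log C + D + 2 * D * Real.log By + 1) / (c / 2))
  set lam : ℕ := max lam0 1 with hlamdef
  have hlam1 : 1 ≤ lam := le_max_right _ _
  have hlam : 2 * w * Real.log C + D + 2 * D * Real.log By + 1 ≤ c / 2 * lam := by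
    rw [div_le_iff₀ (by positivity)] at hlam0
    have h1 : (lam0 : ℝ) ≤ lam := by exact_mod_cast le_max_left _ _
    nlinarith
  have hCS : 1 ≤ B1 ^ 2 * Real.exp (2 * Real.pi * lam) := by
    have h1 : (1 : ℝ) ≤ B1 ^ 2 := one_le_pow₀ hB1
    have h2 : (1 : ℝ) ≤ Real.exp (2 * Real.pi * lam) := by
      apply Real.one_le_exp
      positivity
    nlinarith
  obtain ⟨t0, ht0⟩ := hS L (B1 ^ 2 * Real.exp (2 * Real.pi * lam)) lam hCS hlam1
  obtain ⟨t, ht, htl⟩ := exists_t' C hC D t0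
  obtain ⟨xi, hxi0, hxim, hxih⟩ := ht0 t ht
    (fun n l => PowerSeries.coeff (n : ℕ) (Mo t u l)) (by
      intro n l
      have hnn : 0 ≤ (B1 ^ 2 * Real.exp (2 * Real.pi * lam)) ^ t := by positivity
      rw [house, pi_norm_le_iff_of_nonneg hnn]
      intro s
      have h1 := hCo (fun i m => s (u i m : L)) (fun i => hcu s i) B1 hB1
        (fun i z hz => (hB1' s i z hz).1) t l n
      have h2 := map_Mo (s.comp (algebraMap (𝓞 L) L)) t u l n
      have h3 : (canonicalEmbedding L) ((PowerSeries.coeff (n : ℕ) (Mo t u l) : 𝓞 L) : L) s =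
          PowerSeries.coeff (n : ℕ) (Mo t (fun i m => s (u i m : L)) l) := h2
      rw [h3]
      refine h1.trans ?_
      rw [mul_pow, ← pow_mul, ← Real.exp_nat_mul]
      apply mul_le_mul_of_nonneg_left _ (by positivity)
      apply Real.exp_le_exp.2
      have h4 : ((n : ℕ) : ℝ) ≤ lam * t := by exact_mod_cast n.2.le
      nlinarith)
  have hP1 := hP.1 (𝓞 L) t xi
  refine ⟨2 * t, PP t xi, hP1.2.1 hxi0, hP1.1, ?_⟩
  -- the first coefficients vanish
  have hfirst : ∀ j < lam * t, PowerSeries.coeff j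
      (MvPolynomial.aeval (fun i => PowerSeries.mk (u i)) (PP t xi)) = 0 := by
    intro j hj
    rw [hP1.2.2.2 u, map_sum]
    have h1 := congrFun hxim ⟨j, hj⟩
    simp only [Matrix.mulVec, dotProduct, Pi.zero_apply] at h1
    rw [← h1]
    refine Finset.sum_congr rfl fun l _ => ?_
    rw [PowerSeries.coeff_C_mul, mul_comm]
  -- bound of the values for every embedding
  have hxb : ∀ (s : L →+* ℂ) l, ‖(s.comp (algebraMap (𝓞 L) L)) (xi l)‖ ≤ Real.exp t := fun s l =>
    (norm_embedding_le_house ((xi l : 𝓞 L) : L) s).trans (hxih l)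
  have hbd : ∀ (s : L →+* ℂ) (x : Fin 3 → ℂ), (∀ i, ‖x i‖ ≤ By) →
      ‖MvPolynomial.eval x (MvPolynomial.map (s.comp (algebraMap (𝓞 L) L)) (PP t xi))‖ ≤
        ((t : ℝ) + 1) ^ 2 * Real.exp t * By ^ (2 * t) := by
    intro s x hx
    rw [hP1.2.2.1 (s.comp (algebraMap (𝓞 L) L))]
    exact hP.2.2 t (fun l => (s.comp (algebraMap (𝓞 L) L)) (xi l)) x (Real.exp t) By
      (Real.exp_nonneg _) hBy (hxb s) hx
  -- the house of a coefficient
  have hhouse : ∀ n, house ((PowerSeries.coeff n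
      (MvPolynomial.aeval (fun i => PowerSeries.mk (u i)) (PP t xi)) : 𝓞 L) : L) ≤
      (((t : ℝ) + 1) ^ 2 * Real.exp t * By ^ (2 * t)) * Real.exp (2 * Real.pi * y1 * n) := by
    intro n
    rw [house, pi_norm_le_iff_of_nonneg (by positivity)]
    intro s
    have q1 := hB (fun i m => s (u i m : L)) (fun i => hcu s i)
      (MvPolynomial.map (s.comp (algebraMap (𝓞 L) L)) (PP t xi))
    have q2 := hMp (𝓞 L) (s.comp (algebraMap (𝓞 L) L)) u (PP t xi) n
    have q3 : (canonicalEmbedding L) ((PowerSeries.coeff n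
        (MvPolynomial.aeval (fun i => PowerSeries.mk (u i)) (PP t xi)) : 𝓞 L) : L) s =
        PowerSeries.coeff n (MvPolynomial.aeval (fun i => PowerSeries.mk (fun m => s (u i m : L)))
          (MvPolynomial.map (s.comp (algebraMap (𝓞 L) L)) (PP t xi))) := q2
    rw [q3]
    refine hCa _ q1.1 y1 _ hy1 ?_ n
    intro x _
    have him : ((x : ℂ) + (y1 : ℂ) * Complex.I).im = y1 := by simp
    rw [q1.2 _ (by rw [him]; exact hy1)]
    exact hbd s _ fun i => (hBy' s i _ (by rw [him])).1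
  -- all coefficients vanish
  have hall : ∀ n, PowerSeries.coeff n
      (MvPolynomial.aeval (fun i => PowerSeries.mk (u i)) (PP t xi)) = 0 := by
    by_contra hcon
    push Not at hcon
    set n := Nat.find hcon with hn
    have hn0 := Nat.find_spec hcon
    rw [← hn] at hn0
    have hmin : ∀ j < n, PowerSeries.coeff j
        (MvPolynomial.aeval (fun i => PowerSeries.mk (u i)) (PP t xi)) = 0 := by
      intro j hj
      by_contra h
      exact Nat.find_min hcon hj h
    have hnl : lam * t ≤ n := by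
      by_contra h
      exact hn0 (hfirst n (not_le.1 h))
    set f : 𝓞 L →+* ℂ := s0.comp (algebraMap (𝓞 L) L) with hf
    have hmapP : MvPolynomial.map f (PP t xi) = PP t (fun l => f (xi l)) := hP1.2.2.1 f
    set h : ℕ → ℂ := fun m => PowerSeries.coeff m (MvPolynomial.aeval
      (fun i => PowerSeries.mk (fun m => f (u i m))) (MvPolynomial.map f (PP t xi))) with hh
    set hs' : ℕ → ℂ := fun m => PowerSeries.coeff m (MvPolynomial.aeval
      (fun i => PowerSeries.mk (v i)) (MvPolynomial.map f (PP t xi))) with hhs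
    have hhc : ∀ m, f (PowerSeries.coeff m
        (MvPolynomial.aeval (fun i => PowerSeries.mk (u i)) (PP t xi))) = h m :=
      fun m => hMp (𝓞 L) f u (PP t xi) m
    have q1 := hB (fun i m => f (u i m)) (fun i => hcu s0 i) (MvPolynomial.map f (PP t xi))
    have q2 := hB v hcv (MvPolynomial.map f (PP t xi))
    have hpr : Pr M (w * (2 * t)) h hs' := by
      refine ⟨q1.1, q2.1, fun z hz => ?_⟩
      rw [hh, hhs, q1.2 _ (im_pos hM hz), q2.2 z hz, hmapP]
      have h1 : (fun i => Fn (fun m => f (u i m)) (-1 / ((M : ℂ) * z))) =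
          fun i => ((Real.sqrt M : ℂ) * z) ^ w * Fn (v i) z := by
        funext i
        exact hfe i z hz
      rw [h1, hP.2.1, ← pow_mul]
    have key := hRef (w * (2 * t)) h hs' hpr (((t : ℝ) + 1) ^ 2 * Real.exp t * By ^ (2 * t))
      (by positivity)
      (by
        intro z hz
        rw [hh, q1.2 z (hy.trans_le hz)]
        exact hbd s0 _ fun i => (hBy' s0 i z (hy1y.trans hz)).1)
      (by
        intro z hz
        rw [hhs, q2.2 z (hy.trans_le hz)]
        exact hbd s0 _ fun i => (hBy' s0 i z (hy1y.trans hz)).2)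
      n
      (by
        intro j hj
        rw [← hhc j, hmin j hj, map_zero])
    -- the norm
    set al : 𝓞 L := PowerSeries.coeff n
        (MvPolynomial.aeval (fun i => PowerSeries.mk (u i)) (PP t xi)) with hal
    have hnorm : 1 ≤ ‖Algebra.norm ℚ (al : L)‖ := by
      have h0 : Algebra.norm ℤ al ≠ 0 := Algebra.norm_ne_zero_iff.2 hn0
      have h1 : ((Algebra.norm ℤ al : ℤ) : ℚ) = Algebra.norm ℚ (al : L) := Algebra.coe_norm_int al
      rw [← h1]
      have h2 : (1 : ℤ) ≤ |Algebra.norm ℤ al| := Int.one_le_abs h0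
      have h3 : ‖((Algebra.norm ℤ al : ℤ) : ℚ)‖ = ((|Algebra.norm ℤ al| : ℤ) : ℝ) := by
        rw [← Rat.norm_cast_real, Real.norm_eq_abs]
        push_cast
        rfl
      rw [h3]
      exact_mod_cast h2
    have h2 := norm_norm_le_norm_mul_house_pow (al : L) s0
    have h3 : ‖s0 (al : L)‖ ≤ C ^ (w * (2 * t) + 1) *
        (((t : ℝ) + 1) ^ 2 * Real.exp t * By ^ (2 * t)) * Real.exp (-(c * n)) := by
      have : s0 (al : L) = h n := hhc n
      rw [this]
      exact key
    have h4 : house (al : L) ^ (D - 1) ≤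
        ((((t : ℝ) + 1) ^ 2 * Real.exp t * By ^ (2 * t)) *
          Real.exp (2 * Real.pi * y1 * n)) ^ (D - 1) :=
      pow_le_pow_left₀ (house_nonneg _) (hhouse n) _
    have h5 := fin_ineq' C By c y1 w lam t n D hC hBy hc hD1 hy1.le hy1c hlam hnl
    have h6 : ‖s0 (al : L)‖ * house (al : L) ^ (D - 1) ≤ C ^ (w * (2 * t) + 1) *
        (((t : ℝ) + 1) ^ 2 * Real.exp t * By ^ (2 * t)) * Real.exp (-(c * n)) *
        ((((t : ℝ) + 1) ^ 2 * Real.exp t * By ^ (2 * t)) *
          Real.exp (2 * Real.pi * y1 * n)) ^ (D - 1) :=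
      mul_le_mul h3 h4 (pow_nonneg (house_nonneg _) _) (by positivity)
    linarith
  -- conclusion
  intro s z hz
  set f : 𝓞 L →+* ℂ := s.comp (algebraMap (𝓞 L) L) with hf
  have q1 := hB (fun i m => f (u i m)) (fun i => hcu s i) (MvPolynomial.map f (PP t xi))
  have q2 := q1.2 z hz
  have q3 : (fun n => PowerSeries.coeff n (MvPolynomial.aeval
      (fun i => PowerSeries.mk (fun m => f (u i m))) (MvPolynomial.map f (PP t xi)))) =
      fun _ => (0 : ℂ) := by
    funext n
    rw [← hMp (𝓞 L) f u (PP t xi) n, hall n, map_zero]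
  rw [q3, Fn_zero] at q2
  exact q2.symm

end

end Pool.Agent.H97.ICA
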