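import Pool.Agent.H97.ICA.Defs

/-!
[MAP] Row of chapter 1 (THEOREM A) of THEOREM IC, MP_8e9775_nt.

PROOF. f (coeff n H) = coeff n (PowerSeries.map f H) (PowerSeries.coeff_map); and
PowerSeries.map f (aeval U P) = aeval (fun i => PowerSeries.map f (U i)) (MvPolynomial.map f P): by
MvPolynomial.induction_on P, or MvPolynomial.eval2 composition lemmas (aeval_def,
MvPolynomial.eval2_comp_left / MvPolynomial.eval2_map); PowerSeries.map f (PowerSeries.mk u) =
PowerSeries.mk (fun m => f (u m)) by ext.
-/

namespace Pool.Agent.H97.ICA

open Complex NumberField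

noncomputable section

theorem mp : MapStmt := by
  intro R _ f u P n
  have key : PowerSeries.map f (MvPolynomial.aeval (fun i => PowerSeries.mk (u i)) P) =
      MvPolynomial.aeval (fun i => PowerSeries.mk (fun m => f (u i m))) (MvPolynomial.map f P) := by
    induction P using MvPolynomial.induction_on with
    | C a =>
      simp
    | add p q hp hq =>
      simp only [map_add, hp, hq]
    | mul_X p i hp =>
      simp only [map_mul, hp, MvPolynomial.aeval_X, MvPolynomial.map_X]
      congr 1
  rw [← key, PowerSeries.coeff_map]

end

end Pool.Agent.H97.ICA
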