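import Pool.Agent.H97.ICA.Defs

/-!
[POL] Row of chapter 1 (THEOREM A) of THEOREM IC, MP_8e9775_nt.

PROOF. Homogeneous: sum of IsHomogeneous.mul of C and powers of X: a + b + (2t - a - b) = 2t as
a, b <= t (Fin (t+1)). Nonzero: the coefficient of PP t c at the exponent (a, b, 2t-a-b) is c (a, b)
(the exponents are pairwise distinct: MvPolynomial.coeff_sum, coeff_C_mul, write the product of the
three powers as a monomial; MvPolynomial.monomial / X_pow_eq_monomial, monomial_mul). Map: map_sum,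
map_mul, map_C, map_pow, map_X. aeval: the same with Mo and PowerSeries.C = algebraMap. The eval
identity: (m x0)^a (m x1)^b (m x2)^(2t-a-b) = m^(2t) x0^a x1^b x2^(2t-a-b). The bound: triangle
inequality, (t+1)^2 terms, norm of each monomial <= B^a B^b B^(2t-a-b) = B^(2t).
-/

namespace Pool.Agent.H97.ICA

open Complex NumberField

noncomputable section

private theorem pol_le {t : ℕ} (l : Fin (t + 1) × Fin (t + 1)) :
    (l.1 : ℕ) + (l.2 : ℕ) + (2 * t - (l.1 : ℕ) - (l.2 : ℕ)) = 2 * t := by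
  have h1 := l.1.2
  have h2 := l.2.2
  omega

/-- the exponent vector -/
private def pex {t : ℕ} (l : Fin (t + 1) × Fin (t + 1)) : Fin 3 →₀ ℕ :=
  Finsupp.single 0 (l.1 : ℕ) + Finsupp.single 1 (l.2 : ℕ) +
    Finsupp.single 2 (2 * t - (l.1 : ℕ) - (l.2 : ℕ))

private theorem pex_inj {t : ℕ} {l m : Fin (t + 1) × Fin (t + 1)} (h : pex l = pex m) : l = m := by
  have h0 := DFunLike.congr_fun h 0
  have h1 := DFunLike.congr_fun h 1
  simp [pex] at h0 h1
  exact Prod.ext (Fin.ext h0) (Fin.ext h1)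

private theorem pp_eq {R : Type} [CommRing R] (t : ℕ) (c : Fin (t + 1) × Fin (t + 1) → R) :
    PP t c = ∑ l, MvPolynomial.monomial (pex l) (c l) := by
  unfold PP
  refine Finset.sum_congr rfl fun l _ => ?_
  rw [MvPolynomial.X_pow_eq_monomial, MvPolynomial.X_pow_eq_monomial,
    MvPolynomial.X_pow_eq_monomial, MvPolynomial.monomial_mul, MvPolynomial.monomial_mul,
    MvPolynomial.C_mul_monomial]
  simp [pex]

private theorem pp_coeff {R : Type} [CommRing R] (t : ℕ) (c : Fin (t + 1) × Fin (t + 1) → R)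
    (l : Fin (t + 1) × Fin (t + 1)) : (PP t c).coeff (pex l) = c l := by
  classical
  rw [pp_eq, MvPolynomial.coeff_sum]
  rw [Finset.sum_eq_single l]
  · rw [MvPolynomial.coeff_monomial, if_pos rfl]
  · intro m _ hm
    rw [MvPolynomial.coeff_monomial, if_neg (fun h => hm (pex_inj h))]
  · intro h
    exact absurd (Finset.mem_univ _) h

private theorem pp_eval (t : ℕ) (c : Fin (t + 1) × Fin (t + 1) → ℂ) (x : Fin 3 → ℂ) :
    MvPolynomial.eval x (PP t c) = ∑ l : Fin (t + 1) × Fin (t + 1), c l *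
      (x 0 ^ (l.1 : ℕ) * x 1 ^ (l.2 : ℕ) * x 2 ^ (2 * t - (l.1 : ℕ) - (l.2 : ℕ))) := by
  unfold PP
  rw [map_sum]
  refine Finset.sum_congr rfl fun l _ => ?_
  simp

theorem pol : PolStmt := by
  refine ⟨fun R _ t c => ⟨?_, ?_, ?_, ?_⟩, ?_, ?_⟩
  · unfold PP
    refine MvPolynomial.IsHomogeneous.sum _ _ _ fun l _ => ?_
    have h := (((MvPolynomial.isHomogeneous_X R (0 : Fin 3)).pow (l.1 : ℕ)).mul
      ((MvPolynomial.isHomogeneous_X R (1 : Fin 3)).pow (l.2 : ℕ))).mul
      ((MvPolynomial.isHomogeneous_X R (2 : Fin 3)).pow (2 * t - (l.1 : ℕ) - (l.2 : ℕ)))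
    have h2 := (MvPolynomial.isHomogeneous_C (Fin 3) (c l)).mul h
    have he : 0 + (1 * (l.1 : ℕ) + 1 * (l.2 : ℕ) + 1 * (2 * t - (l.1 : ℕ) - (l.2 : ℕ))) = 2 * t := by
      have := pol_le l
      omega
    rw [he] at h2
    exact h2
  · intro hc h0
    apply hc
    funext l
    have := pp_coeff t c l
    rw [h0, MvPolynomial.coeff_zero] at this
    exact this.symm
  · intro f
    unfold PP
    rw [map_sum]
    refine Finset.sum_congr rfl fun l _ => ?_
    simp
  · intro u
    unfold PP Mo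
    rw [map_sum]
    refine Finset.sum_congr rfl fun l _ => ?_
    rw [map_mul, map_mul, map_mul, map_pow, map_pow, map_pow, MvPolynomial.aeval_X,
      MvPolynomial.aeval_X, MvPolynomial.aeval_X, MvPolynomial.aeval_C]
    rfl
  · intro t c x m
    rw [pp_eval, pp_eval, Finset.mul_sum]
    refine Finset.sum_congr rfl fun l _ => ?_
    have he := pol_le l
    rw [← he, pow_add, pow_add, he]
    ring
  · intro t c x A B hA hB hc hx
    rw [pp_eval]
    refine (norm_sum_le _ _).trans ?_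
    have hB0 : 0 ≤ B := by linarith
    have h1 : ∀ l ∈ (Finset.univ : Finset (Fin (t + 1) × Fin (t + 1))), ‖c l *
        (x 0 ^ (l.1 : ℕ) * x 1 ^ (l.2 : ℕ) * x 2 ^ (2 * t - (l.1 : ℕ) - (l.2 : ℕ)))‖ ≤
        A * B ^ (2 * t) := by
      intro l _
      rw [norm_mul, norm_mul, norm_mul, norm_pow, norm_pow, norm_pow]
      apply mul_le_mul (hc l) _ (by positivity) hA
      calc ‖x 0‖ ^ (l.1 : ℕ) * ‖x 1‖ ^ (l.2 : ℕ) * ‖x 2‖ ^ (2 * t - (l.1 : ℕ) - (l.2 : ℕ))
          ≤ B ^ (l.1 : ℕ) * B ^ (l.2 : ℕ) * B ^ (2 * t - (l.1 : ℕ) - (l.2 : ℕ)) := by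
            apply mul_le_mul (mul_le_mul _ _ _ _) _ _ _
            · exact pow_le_pow_left₀ (norm_nonneg _) (hx 0) _
            · exact pow_le_pow_left₀ (norm_nonneg _) (hx 1) _
            · positivity
            · positivity
            · exact pow_le_pow_left₀ (norm_nonneg _) (hx 2) _
            · positivity
            · positivity
        _ = B ^ (2 * t) := by
            rw [← pow_add, ← pow_add, pol_le l]
    refine (Finset.sum_le_sum h1).trans ?_
    rw [Finset.sum_const, nsmul_eq_mul, Finset.card_univ, Fintype.card_prod, Fintype.card_fin]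
    push_cast
    rw [mul_assoc]
    apply le_of_eq
    ring

end

end Pool.Agent.H97.ICA
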