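import Pool.Agent.H97.ICA.Defs

/-!
[REF] Row of chapter 1 (THEOREM A) of THEOREM IC, MP_8e9775_nt. Assembly of the reflection lemma.

PROOF. Take y = M / (3200 (1+M)^4), x1 = sqrt (y/(2M)) = 1 / (80 (1+M)^2), c = 2 pi y,
b = max 1 (1/sqrt M), C0 = b * max 1 (1/(sqrt M y)), C = 6 C0. Elementary: y <= 1/4,
y <= 2/(5M), y <= 1/(2M), x1 <= 1, and (pi/10) x1 / M >= 4 pi y.
J = ceil (1/(2 x1)): 1/(2J) <= x1 and J <= 1/x1 (for 1/2 <= s = 1/(2 x1): ceil s <= 2 s, by cases
s <= 1 and s > 1), so 1/J >= x1.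
Let T = n/(10M), D = b^K B exp (-(3/5) pi n/M). hSa: norm (hs j) <= D for j <= T. hSb: on
|x| <= x1 (x^2 <= y/(2M)): norm (Fn h (x + i y)) <= E := (1/(sqrt M y))^K (2 D + 4 B exp (-pi T)) <=
6 C0^K B exp (-(pi/10) n/M). hSc: norm (h n)^J <= B^(J-1) * 6 C0^K B exp (-(pi/10) n/M) *
exp (2 pi y n J) <= (6 C0^K B exp (-(c n)))^J, because (6 C0^K) <= (6 C0^K)^J, B^(J-1) B = B^J and
-(pi/10)/M + 2 pi y J <= -c J (divide by J: (pi/10)/(M J) >= (pi/10) x1/M >= 4 pi y). Conclude by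
pow_le_pow_left (monotonicity of the J-th power, J >= 1). Note 6 C0^K <= (6 C0)^(K+1).
-/

namespace Pool.Agent.H97.ICA

open Complex NumberField

noncomputable section

private theorem exJ (x1 : ℝ) (h0 : 0 < x1) (h1 : x1 ≤ 1) :
    ∃ J : ℕ, 1 ≤ J ∧ 1 / (2 * (J : ℝ)) ≤ x1 ∧ (J : ℝ) * x1 ≤ 1 := by
  have hs : (1 : ℝ) / 2 ≤ 1 / (2 * x1) := by
    rw [div_le_div_iff₀ (by norm_num) (by positivity)]
    linarith
  have hJle : ((⌈1 / (2 * x1)⌉₊ : ℕ) : ℝ) ≤ 2 * (1 / (2 * x1)) := by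
    rcases le_or_gt (1 / (2 * x1)) 1 with h | h
    · have h2 : ⌈1 / (2 * x1)⌉₊ ≤ 1 := by
        rw [Nat.ceil_le]
        exact_mod_cast h
      have h3 : ((⌈1 / (2 * x1)⌉₊ : ℕ) : ℝ) ≤ 1 := by exact_mod_cast h2
      linarith
    · have h2 := (Nat.ceil_lt_add_one (show 0 ≤ 1 / (2 * x1) by positivity)).le
      linarith
  have hJge : 1 / (2 * x1) ≤ ((⌈1 / (2 * x1)⌉₊ : ℕ) : ℝ) := Nat.le_ceil _
  have hJpos : (0 : ℝ) < ((⌈1 / (2 * x1)⌉₊ : ℕ) : ℝ) := by linarith
  refine ⟨⌈1 / (2 * x1)⌉₊, ?_, ?_, ?_⟩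
  · exact_mod_cast hJpos
  · rw [div_le_iff₀ (by positivity)]
    have h4 : x1 * (2 * (1 / (2 * x1))) = 1 := by field_simp
    have h5 : x1 * (2 * (1 / (2 * x1))) ≤ x1 * (2 * ((⌈1 / (2 * x1)⌉₊ : ℕ) : ℝ)) := by
      apply mul_le_mul_of_nonneg_left _ h0.le
      linarith
    linarith
  · have h6 : 2 * (1 / (2 * x1)) * x1 = 1 := by field_simp
    have h7 := mul_le_mul_of_nonneg_right hJle h0.le
    linarith

theorem ref (hSa : StaStmt) (hSb : StbStmt) (hSc : StcStmt) : RefStmt := by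
  intro M hM0
  have hpi := Real.pi_pos
  have hsq : 0 < Real.sqrt M := Real.sqrt_pos.mpr hM0
  set q : ℝ := 1 + M with hq
  have hq1 : 1 ≤ q := by linarith
  have hq0 : 0 < q := by linarith
  have hMq : M ≤ q := by linarith
  have hq24 : q ^ 2 ≤ q ^ 4 := pow_le_pow_right₀ hq1 (by norm_num)
  have hq14 : q ≤ q ^ 4 := by
    calc q = q ^ 1 := (pow_one q).symm
      _ ≤ q ^ 4 := pow_le_pow_right₀ hq1 (by norm_num)
  have hM2 : M * M ≤ q ^ 2 := by nlinarith
  set y : ℝ := M / (3200 * q ^ 4) with hy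
  have hy0 : 0 < y := by positivity
  have hy4 : y ≤ 1 / 4 := by
    rw [hy, div_le_div_iff₀ (by positivity) (by norm_num)]
    nlinarith
  have hy5 : y ≤ 2 / (5 * M) := by
    rw [hy, div_le_div_iff₀ (by positivity) (by positivity)]
    nlinarith
  have hy2 : y ≤ 1 / (2 * M) := by
    rw [hy, div_le_div_iff₀ (by positivity) (by positivity)]
    nlinarith
  set x1 : ℝ := 1 / (80 * q ^ 2) with hx1
  have hx10 : 0 < x1 := by positivity
  have hx11 : x1 ≤ 1 := by
    rw [hx1, div_le_one (by positivity)]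
    nlinarith
  have hx1sq : x1 ^ 2 = y / (2 * M) := by
    rw [hx1, hy]
    field_simp
    norm_num
  have hx1y : 4 * y ≤ x1 / (10 * M) := by
    rw [hx1, hy, div_div, mul_div_assoc', div_le_div_iff₀ (by positivity) (by positivity)]
    have h1 : M * M * q ^ 2 ≤ q ^ 2 * q ^ 2 := mul_le_mul_of_nonneg_right hM2 (by positivity)
    nlinarith
  obtain ⟨J, hJ1, hJx, hJx1⟩ := exJ x1 hx10 hx11
  set b : ℝ := max 1 (1 / Real.sqrt M) with hb
  have hb1 : 1 ≤ b := le_max_left _ _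
  set m : ℝ := max 1 (1 / (Real.sqrt M * y)) with hm
  have hm1 : 1 ≤ m := le_max_left _ _
  have hbm : 1 ≤ b * m := one_le_mul_of_one_le_of_one_le hb1 hm1
  refine ⟨y, 2 * Real.pi * y, 6 * (b * m), hy0, by positivity, by linarith, ?_⟩
  intro K h hs P B hB hbh hbs n hz
  have hn0 : (0 : ℝ) ≤ n := Nat.cast_nonneg n
  set D : ℝ := b ^ K * B * Real.exp (-(3 / 5 * Real.pi * n / M)) with hD
  have hD0 : 0 ≤ D := by positivity
  set E : ℝ := 6 * (b * m) ^ K * B * Real.exp (-(Real.pi / 10 * n / M)) with hE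
  have hE0 : 0 ≤ E := by positivity
  have hDj : ∀ j : ℕ, (j : ℝ) ≤ n / (10 * M) → ‖hs j‖ ≤ D := fun j hj =>
    hSa M hM0 K h hs P y B hy0 hy5 hB hbh n hz j hj
  have hEx : ∀ x : ℝ, |x| ≤ x1 → ‖Fn h (x + y * Complex.I)‖ ≤ E := by
    intro x hx
    have hx2 : x ^ 2 ≤ y / (2 * M) := by
      rw [← hx1sq, ← sq_abs x]
      exact pow_le_pow_left₀ (abs_nonneg _) hx 2
    refine (hSb M hM0 K h hs P y B D (n / (10 * M)) hy0 hy4 hy2 hB hD0 (by positivity) hbs hDj x
      hx2).trans ?_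
    have h1 : (1 / (Real.sqrt M * y)) ^ K ≤ m ^ K :=
      pow_le_pow_left₀ (by positivity) (le_max_right _ _) K
    have h2 : Real.exp (-(Real.pi * (n / (10 * M)))) = Real.exp (-(Real.pi / 10 * n / M)) := by
      congr 2
      field_simp
    have h3 : D ≤ b ^ K * B * Real.exp (-(Real.pi / 10 * n / M)) := by
      rw [hD]
      apply mul_le_mul_of_nonneg_left _ (by positivity)
      apply Real.exp_le_exp.mpr
      have h4 : 0 ≤ Real.pi * n / M := by positivity
      have h5 : 3 / 5 * Real.pi * n / M = 3 / 5 * (Real.pi * n / M) := by ring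
      have h6 : Real.pi / 10 * n / M = 1 / 10 * (Real.pi * n / M) := by ring
      rw [h5, h6]
      linarith
    have h7 : B * Real.exp (-(Real.pi / 10 * n / M)) ≤
        b ^ K * B * Real.exp (-(Real.pi / 10 * n / M)) := by
      rw [mul_assoc (b ^ K) B]
      exact le_mul_of_one_le_left (by positivity) (one_le_pow₀ hb1)
    calc (1 / (Real.sqrt M * y)) ^ K * (2 * D + 4 * B * Real.exp (-(Real.pi * (n / (10 * M)))))
        ≤ m ^ K * (6 * (b ^ K * B * Real.exp (-(Real.pi / 10 * n / M)))) := by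
          apply mul_le_mul h1 _ (by positivity) (by positivity)
          rw [h2]
          linarith
      _ = E := by rw [hE, mul_pow]; ring
  have hSc1 := hSc h P.ch y B E x1 J hy0 hB hE0 hJ1 hJx (fun x => hbh _ (by simp)) hEx n hz
  set G : ℝ := 6 * (b * m) ^ K with hG
  have hG1 : 1 ≤ G := by
    have : 1 ≤ (b * m) ^ K := one_le_pow₀ hbm
    linarith
  have hJne : J ≠ 0 := by omega
  have hJB : B ^ (J - 1) * B = B ^ J := by
    rw [← pow_succ, Nat.sub_add_cancel hJ1]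
  have hfin : ‖h n‖ ^ J ≤ (G * B * Real.exp (-(2 * Real.pi * y * n))) ^ J := by
    refine hSc1.trans ?_
    have h8 : B ^ (J - 1) * E * Real.exp (2 * Real.pi * y * n * J) =
        G * B ^ J * Real.exp (-(Real.pi / 10 * n / M) + 2 * Real.pi * y * n * J) := by
      rw [hE, ← hJB, Real.exp_add]
      ring
    have h9 : (G * B * Real.exp (-(2 * Real.pi * y * n))) ^ J =
        G ^ J * B ^ J * Real.exp ((J : ℝ) * -(2 * Real.pi * y * n)) := by
      rw [mul_pow, mul_pow, ← Real.exp_nat_mul]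
    rw [h8, h9]
    apply mul_le_mul _ _ (Real.exp_pos _).le (by positivity)
    · apply mul_le_mul_of_nonneg_right _ (by positivity)
      exact le_self_pow₀ hG1 hJne
    · apply Real.exp_le_exp.mpr
      have hJ0 : (0 : ℝ) ≤ J := Nat.cast_nonneg J
      have h10 : 4 * y * J ≤ 1 / (10 * M) := by
        have h11 : 4 * y * J ≤ x1 / (10 * M) * J := mul_le_mul_of_nonneg_right hx1y hJ0
        have h12 : x1 / (10 * M) * J = (J * x1) / (10 * M) := by ring
        have h13 : (J * x1) / (10 * M) ≤ 1 / (10 * M) :=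
          div_le_div_of_nonneg_right hJx1 (by positivity)
        linarith
      have h14 : Real.pi * n * (4 * y * J) ≤ Real.pi * n * (1 / (10 * M)) :=
        mul_le_mul_of_nonneg_left h10 (by positivity)
      have h15 : Real.pi * n * (1 / (10 * M)) = Real.pi / 10 * n / M := by
        field_simp
      rw [h15] at h14
      nlinarith
  have hle : ‖h n‖ ≤ G * B * Real.exp (-(2 * Real.pi * y * n)) :=
    (pow_le_pow_iff_left₀ (norm_nonneg _) (by positivity) hJne).mp hfin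
  refine hle.trans ?_
  apply mul_le_mul_of_nonneg_right _ (Real.exp_pos _).le
  apply mul_le_mul_of_nonneg_right _ hB
  have h18 : (6 * (b * m)) ^ (K + 1) = 6 ^ K * 6 * ((b * m) ^ K * (b * m)) := by
    rw [pow_succ, mul_pow 6 (b * m) K]
    ring
  rw [hG, h18]
  have h16 : (1 : ℝ) ≤ 6 ^ K := one_le_pow₀ (by norm_num)
  have h17 : 0 ≤ (b * m) ^ K := by positivity
  calc 6 * (b * m) ^ K = 1 * 6 * ((b * m) ^ K * 1) := by ring
    _ ≤ 6 ^ K * 6 * ((b * m) ^ K * (b * m)) := by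
      apply mul_le_mul _ _ (by positivity) (by positivity)
      · exact mul_le_mul_of_nonneg_right h16 (by norm_num)
      · exact mul_le_mul_of_nonneg_left hbm h17

end

end Pool.Agent.H97.ICA
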