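import Pool.Agent.H97.ICA.Defs

/-!
[SIE] Row of chapter 1 (THEOREM A) of THEOREM IC, MP_8e9775_nt.

PROOF. Mathlib: NumberField.house.exists_ne_zero_int_vec_house_le (Mathlib/NumberTheory/NumberField/House.lean):
p = lam t equations, q = (t+1)^2 unknowns in O_L, a nonzero, house (a n l) <= A = C^t gives a nonzero
solution with house <= c1 (c1 q A)^(p/(q-p)). The constant c1 is a private definition: package it once
as an existential (theorem aux : exists c, for all ... , house <= c * ((c * q * A)^...) := by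
refine (_, fun ... => exists_ne_zero_int_vec_house_le ...)), the metavariable is solved by
unification; classical decidability instance). Its sign is not needed: |x^y| <= |x|^y
(Real.abs_rpow_le_abs_rpow), replace c1 by C1 = max 1 |c1|.
For t >= max (2 lam) 1: p < q, q - p >= t^2/2, p/(q-p) <= 2 lam/t, hence (base >= 1)
house <= C1 (C1 (t+1)^2 C^t)^(2 lam/t) = C1 exp ((2 lam/t)(log C1 + 2 log (t+1) + t log C)) <=
C1 exp (2 lam (log C1 + 2 + log C)) for t >= 1 (log (t+1) <= t): a constant, <= exp t for t large.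
If a = 0 take xi = the constant 1 (house 1 = 1 <= exp t).
-/

namespace Pool.Agent.H97.ICA

open Complex NumberField

noncomputable section

private theorem aux (L : Type) [Field L] [NumberField L] : ∃ c : ℝ,
    ∀ (α β : Type) [Fintype α] [Fintype β] (a : Matrix α β (𝓞 L)) (p q : ℕ) (A : ℝ), a ≠ 0 →
      0 < p → p < q → Fintype.card β = q → Fintype.card α = p →
      (∀ k l, house (algebraMap (𝓞 L) L (a k l)) ≤ A) →
      ∃ ξ : β → 𝓞 L, ξ ≠ 0 ∧ a.mulVec ξ = 0 ∧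
        ∀ l, house ((ξ l : 𝓞 L) : L) ≤ c * ((c * q * A) ^ ((p : ℝ) / (q - p))) := by
  classical
  refine ⟨?_, ?_⟩
  rotate_left
  · intro α β _ _ a p q A ha h0p hpq hβ hα habs
    exact NumberField.house.exists_ne_zero_int_vec_house_le L a ha h0p hpq hβ habs hα

theorem sie : SieStmt := by
  classical
  intro L _ _ C lam hC hlam
  obtain ⟨c, hc⟩ := aux L
  obtain ⟨C1, hC1⟩ : ∃ C1 : ℝ, C1 = max 1 |c| := ⟨_, rfl⟩
  have h1 : 1 ≤ C1 := hC1 ▸ le_max_left _ _
  have h2 : |c| ≤ C1 := hC1 ▸ le_max_right _ _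
  obtain ⟨κ, hκ⟩ : ∃ κ : ℝ, κ = 2 * lam * (Real.log C1 + 2 + Real.log C) := ⟨_, rfl⟩
  obtain ⟨t1, ht1⟩ := exists_nat_ge (Real.log C1 + κ)
  refine ⟨max t1 (max (2 * lam) 1), fun t ht a ha => ?_⟩
  have ht2 : t1 ≤ t := (le_max_left _ _).trans ht
  have ht3 : 2 * lam ≤ t := ((le_max_left _ _).trans (le_max_right _ _)).trans ht
  have ht4 : 1 ≤ t := ((le_max_right _ _).trans (le_max_right _ _)).trans ht
  have ht4' : (1 : ℝ) ≤ t := by exact_mod_cast ht4
  by_cases ha0 : a = 0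
  · subst ha0
    refine ⟨fun _ => 1, fun h0 => one_ne_zero (congrFun h0 (0, 0)), by simp, fun l => ?_⟩
    have h3 : house ((((1 : 𝓞 L)) : 𝓞 L) : L) = 1 := by
      have := house_intCast (K := L) 1
      simpa using this
    simp only [h3]
    exact Real.one_le_exp (by positivity)
  have hp : 0 < lam * t := Nat.mul_pos hlam ht4
  have hpq : lam * t < (t + 1) ^ 2 := by nlinarith
  obtain ⟨ξ, h3, h4, h5⟩ := hc (Fin (lam * t)) (Fin (t + 1) × Fin (t + 1)) a (lam * t)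
    ((t + 1) ^ 2) (C ^ t) ha0 hp hpq (by simp [pow_two]) (by simp) ha
  refine ⟨ξ, h3, h4, fun l => (h5 l).trans ?_⟩
  have hC0 : 0 < C := by linarith
  obtain ⟨e, he⟩ : ∃ e : ℝ, e = ((lam * t : ℕ) : ℝ) / ((((t + 1) ^ 2 : ℕ) : ℝ) - ((lam * t : ℕ) : ℝ)) :=
    ⟨_, rfl⟩
  rw [← he]
  have ht3' : 2 * (lam : ℝ) ≤ t := by exact_mod_cast ht3
  have hlam' : (1 : ℝ) ≤ lam := by exact_mod_cast hlam
  have hden : (t : ℝ) ^ 2 / 2 ≤ (((t + 1) ^ 2 : ℕ) : ℝ) - ((lam * t : ℕ) : ℝ) := by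
    push_cast
    nlinarith
  have hden0 : 0 < (t : ℝ) ^ 2 / 2 := by positivity
  have he0 : 0 ≤ e := by
    rw [he]
    exact div_nonneg (by positivity) (hden0.le.trans hden)
  have he1 : e ≤ 2 * lam / t := by
    rw [he, div_le_div_iff₀ (hden0.trans_le hden) (by positivity)]
    push_cast at hden ⊢
    nlinarith
  have hb1 : 1 ≤ C1 * (((t + 1) ^ 2 : ℕ) : ℝ) * C ^ t := by
    have e1 : (1 : ℝ) ≤ (((t + 1) ^ 2 : ℕ) : ℝ) := by
      exact_mod_cast Nat.one_le_pow _ _ (Nat.succ_pos t)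
    have e2 : (1 : ℝ) ≤ C ^ t := one_le_pow₀ hC
    exact one_le_mul_of_one_le_of_one_le (one_le_mul_of_one_le_of_one_le h1 e1) e2
  have hb : |(c * (((t + 1) ^ 2 : ℕ) : ℝ) * C ^ t) ^ e| ≤
      (C1 * (((t + 1) ^ 2 : ℕ) : ℝ) * C ^ t) ^ e := by
    refine (Real.abs_rpow_le_abs_rpow _ _).trans ?_
    refine Real.rpow_le_rpow (abs_nonneg _) ?_ he0
    rw [abs_mul, abs_mul, abs_of_nonneg (by positivity : (0 : ℝ) ≤ (((t + 1) ^ 2 : ℕ) : ℝ)),
      abs_of_nonneg (by positivity : (0 : ℝ) ≤ C ^ t)]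
    gcongr
  have hlog : Real.log (C1 * (((t + 1) ^ 2 : ℕ) : ℝ) * C ^ t) ≤
      t * (Real.log C1 + 2 + Real.log C) := by
    have e0 : (0 : ℝ) < (((t + 1) ^ 2 : ℕ) : ℝ) := by positivity
    rw [Real.log_mul (by positivity) (by positivity), Real.log_mul (by positivity) e0.ne',
      Real.log_pow]
    have e1 : Real.log (((t + 1) ^ 2 : ℕ) : ℝ) ≤ 2 * t := by
      push_cast
      rw [Real.log_pow]
      have := Real.log_le_sub_one_of_pos (by positivity : (0 : ℝ) < (t : ℝ) + 1)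
      push_cast
      linarith
    have e2 : Real.log C1 ≤ t * Real.log C1 :=
      le_mul_of_one_le_left (Real.log_nonneg h1) ht4'
    nlinarith
  have hlog0 : 0 ≤ Real.log (C1 * (((t + 1) ^ 2 : ℕ) : ℝ) * C ^ t) := Real.log_nonneg hb1
  have hb2 : (C1 * (((t + 1) ^ 2 : ℕ) : ℝ) * C ^ t) ^ e ≤ Real.exp κ := by
    rw [Real.rpow_def_of_pos (by linarith)]
    refine Real.exp_le_exp.2 ?_
    calc _ ≤ Real.log (C1 * (((t + 1) ^ 2 : ℕ) : ℝ) * C ^ t) * (2 * lam / t) :=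
          mul_le_mul_of_nonneg_left he1 hlog0
      _ ≤ (t * (Real.log C1 + 2 + Real.log C)) * (2 * lam / t) :=
          mul_le_mul_of_nonneg_right hlog (by positivity)
      _ = κ := by
          rw [hκ]
          have : (t : ℝ) ≠ 0 := by positivity
          field_simp
  have hx0 : 0 ≤ (C1 * (((t + 1) ^ 2 : ℕ) : ℝ) * C ^ t) ^ e := Real.rpow_nonneg (by linarith) _
  calc c * (c * (((t + 1) ^ 2 : ℕ) : ℝ) * C ^ t) ^ e
      ≤ |c| * |(c * (((t + 1) ^ 2 : ℕ) : ℝ) * C ^ t) ^ e| := by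
        rw [← abs_mul]
        exact le_abs_self _
    _ ≤ C1 * (C1 * (((t + 1) ^ 2 : ℕ) : ℝ) * C ^ t) ^ e := by
        refine mul_le_mul h2 ?_ (abs_nonneg _) (by linarith)
        exact hb
    _ ≤ C1 * Real.exp κ := mul_le_mul_of_nonneg_left hb2 (by linarith)
    _ = Real.exp (Real.log C1 + κ) := by rw [Real.exp_add, Real.exp_log (by linarith)]
    _ ≤ Real.exp t := Real.exp_le_exp.2 (ht1.trans (by exact_mod_cast ht2))

end

end Pool.Agent.H97.ICA
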