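import Pool.Agent.H97.ICA.Defs

/-!
[STA] Row of chapter 1 (THEOREM A) of THEOREM IC, MP_8e9775_nt.

PROOF. Let z = x + i, |x| <= 1/2, and w = -1/(M z): im w = 1/(M |z|^2) = 1/(M (1 + x^2)) >= 4/(5M)
>= y. By hM: norm (Fn h w) <= B exp (-2 pi (im w - y) n) <= B exp (-2 pi (4/(5M) - 2/(5M)) n)
= B exp (-(4/5) pi n / M). By fe (im z = 1 > 0): norm (Fn h w) = (sqrt M |z|)^K norm (Fn hs z) and
sqrt M |z| >= sqrt M, so norm (Fn hs z) <= (1/sqrt M)^K B exp (-(4/5) pi n/M), and (1/sqrt M)^K <=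
(max 1 (1/sqrt M))^K. By hC with y = 1: norm (hs j) <= that * exp (2 pi j), and 2 pi j <=
(1/5) pi n/M. Total exponent -(3/5) pi n / M.
-/

namespace Pool.Agent.H97.ICA

open Complex NumberField

noncomputable section

private theorem im_w (M : ℝ) (hM : 0 < M) (z : ℂ) :
    (-1 / ((M : ℂ) * z)).im = z.im / (M * Complex.normSq z) := by
  have h1 : (-1 / ((M : ℂ) * z)) = ((-(1 / M) : ℝ) : ℂ) * z⁻¹ := by
    have hM' : (M : ℂ) ≠ 0 := by exact_mod_cast hM.ne'
    push_cast
    rw [div_eq_mul_inv, mul_inv]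
    ring
  rw [h1, Complex.im_ofReal_mul, Complex.inv_im]
  have : M ≠ 0 := hM.ne'
  rw [div_eq_mul_inv, div_eq_mul_inv, div_eq_mul_inv, mul_inv]
  ring

theorem sta (hE : ExaStmt) (hC : CauStmt) (hM : MaxStmt) : StaStmt := by
  intro M hM0 K h hs P y B hy hy2 hB hbd n hz j hj
  have hpi := Real.pi_pos
  have hsq : 0 < Real.sqrt M := Real.sqrt_pos.mpr hM0
  set b : ℝ := max 1 (1 / Real.sqrt M) with hb
  have hb1 : 1 ≤ b := le_max_left _ _
  have key : ∀ x : ℝ, |x| ≤ 1 / 2 →
      ‖Fn hs (x + ((1 : ℝ) : ℂ) * Complex.I)‖ ≤ b ^ K * B * Real.exp (-(4 / 5 * Real.pi * n / M)) := by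
    intro x hx
    set z : ℂ := (x : ℂ) + ((1 : ℝ) : ℂ) * Complex.I with hzdef
    have hzim : z.im = 1 := by simp [hzdef]
    have hzre : z.re = x := by simp [hzdef]
    have hns : Complex.normSq z = x ^ 2 + 1 := by
      rw [Complex.normSq_apply, hzim, hzre]; ring
    have hx2 : x ^ 2 ≤ 1 / 4 := by
      have := abs_le.mp hx
      nlinarith
    have hw := im_w M hM0 z
    rw [hns, hzim] at hw
    have hwim : 4 / (5 * M) ≤ (-1 / ((M : ℂ) * z)).im := by
      rw [hw, div_le_div_iff₀ (by positivity) (by positivity)]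
      nlinarith
    have hyw : y ≤ (-1 / ((M : ℂ) * z)).im := by
      refine le_trans hy2 (le_trans ?_ hwim)
      apply div_le_div_of_nonneg_right (by norm_num) (by positivity)
    have hmax := hM h P.ch y B hy (fun t => hbd _ (by simp)) n hz _ hyw
    have hexp : B * Real.exp (-(2 * Real.pi * ((-1 / ((M : ℂ) * z)).im - y) * n)) ≤
        B * Real.exp (-(4 / 5 * Real.pi * n / M)) := by
      apply mul_le_mul_of_nonneg_left _ hB
      apply Real.exp_le_exp.mpr
      have h3 : 2 / (5 * M) ≤ (-1 / ((M : ℂ) * z)).im - y := by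
        have : 4 / (5 * M) - 2 / (5 * M) = 2 / (5 * M) := by ring
        linarith
      have h4 : 4 / 5 * Real.pi * n / M = 2 * Real.pi * (2 / (5 * M)) * n := by
        field_simp
        ring
      rw [h4]
      have h5 : 2 * Real.pi * (2 / (5 * M)) * n ≤
          2 * Real.pi * ((-1 / ((M : ℂ) * z)).im - y) * n := by
        apply mul_le_mul_of_nonneg_right _ (Nat.cast_nonneg n)
        apply mul_le_mul_of_nonneg_left h3 (by positivity)
      linarith
    have hfe := P.fe z (by rw [hzim]; exact one_pos)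
    have hnz : 1 ≤ ‖z‖ := by
      have : |z.im| ≤ ‖z‖ := Complex.abs_im_le_norm z
      rw [hzim, abs_one] at this
      exact this
    have hnorm : ‖((Real.sqrt M : ℂ) * z) ^ K * Fn hs z‖ = (Real.sqrt M * ‖z‖) ^ K * ‖Fn hs z‖ := by
      rw [norm_mul, norm_pow, norm_mul, Complex.norm_real, Real.norm_of_nonneg hsq.le]
    have h6 : Real.sqrt M ^ K * ‖Fn hs z‖ ≤ B * Real.exp (-(4 / 5 * Real.pi * n / M)) := by
      calc Real.sqrt M ^ K * ‖Fn hs z‖ ≤ (Real.sqrt M * ‖z‖) ^ K * ‖Fn hs z‖ := by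
            apply mul_le_mul_of_nonneg_right _ (norm_nonneg _)
            apply pow_le_pow_left₀ hsq.le
            exact le_mul_of_one_le_right hsq.le hnz
        _ = ‖Fn h (-1 / ((M : ℂ) * z))‖ := by rw [hfe, hnorm]
        _ ≤ _ := hmax.trans hexp
    have h7 : ‖Fn hs z‖ ≤ (1 / Real.sqrt M) ^ K * (B * Real.exp (-(4 / 5 * Real.pi * n / M))) := by
      have h8 : ‖Fn hs z‖ = (1 / Real.sqrt M) ^ K * (Real.sqrt M ^ K * ‖Fn hs z‖) := by
        rw [← mul_assoc, ← mul_pow, one_div, inv_mul_cancel₀ hsq.ne', one_pow, one_mul]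
      rw [h8]
      exact mul_le_mul_of_nonneg_left h6 (by positivity)
    refine h7.trans ?_
    rw [mul_assoc (b ^ K) B]
    apply mul_le_mul_of_nonneg_right _ (by positivity)
    exact pow_le_pow_left₀ (by positivity) (le_max_right _ _) K
  have h9 := hC hs P.cs 1 _ one_pos key j
  refine h9.trans ?_
  rw [mul_assoc, ← Real.exp_add]
  apply mul_le_mul_of_nonneg_left _ (by positivity)
  apply Real.exp_le_exp.mpr
  have h10 : 2 * Real.pi * 1 * (j : ℝ) ≤ 1 / 5 * Real.pi * n / M := by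
    have h11 : 1 / 5 * Real.pi * n / M = 2 * Real.pi * 1 * (n / (10 * M)) := by
      field_simp
      ring
    rw [h11]
    exact mul_le_mul_of_nonneg_left hj (by positivity)
  have h12 : 3 / 5 * Real.pi * n / M = 4 / 5 * Real.pi * n / M - 1 / 5 * Real.pi * n / M := by
    ring
  linarith

end

end Pool.Agent.H97.ICA
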