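import Pool.Agent.H97.ICA.Defs

/-!
[STB] Row of chapter 1 (THEOREM A) of THEOREM IC, MP_8e9775_nt.

PROOF. Let z = x + i y, w = -1/(M z). |z|^2 = x^2 + y^2 <= y/(2M) + y/(2M) = y/M, so im w =
y/(M |z|^2) >= 1. -1/(M w) = z, so fe at w gives Fn h z = (sqrt M w)^K Fn hs w, and
|sqrt M w| = 1/(sqrt M |z|) <= 1/(sqrt M y). It remains norm (Fn hs w) <= 2D + 4B exp (-pi T):
by hE (majorant with im w >= 1) norm (Fn hs w) <= sum over j of norm (hs j) exp (-2 pi j).
Terms with j <= T: norm (hs j) <= D. Terms with j > T: by hC norm (hs j) <= B exp (2 pi y j) <=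
B exp (pi j / 2), so the term is <= B exp (-(3/2) pi j) <= B exp (-pi T) exp (-(pi/2) j).
So every term is <= D exp (-2 pi j) + B exp (-pi T) exp (-(pi/2) j), and the geometric series are
<= 2 and <= 4 (exp (-pi/2) <= 1/2 and exp (-2 pi) <= 1/2).
-/

namespace Pool.Agent.H97.ICA

open Complex NumberField

noncomputable section

private theorem im_w' (M : ℝ) (hM : 0 < M) (z : ℂ) :
    (-1 / ((M : ℂ) * z)).im = z.im / (M * Complex.normSq z) := by
  have h1 : (-1 / ((M : ℂ) * z)) = ((-(1 / M) : ℝ) : ℂ) * z⁻¹ := by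
    have hM' : (M : ℂ) ≠ 0 := by exact_mod_cast hM.ne'
    push_cast
    rw [div_eq_mul_inv, mul_inv]
    ring
  rw [h1, Complex.im_ofReal_mul, Complex.inv_im]
  have : M ≠ 0 := hM.ne'
  rw [div_eq_mul_inv, div_eq_mul_inv, div_eq_mul_inv, mul_inv]
  ring

private theorem geo (c : ℝ) (hc : 1 ≤ c) :
    (Summable fun j : ℕ => Real.exp (-(c * j))) ∧ ∑' j : ℕ, Real.exp (-(c * j)) ≤ 2 := by
  have h1 : (fun j : ℕ => Real.exp (-(c * j))) = fun j : ℕ => (Real.exp (-c)) ^ j := by
    funext j
    rw [← Real.exp_nat_mul]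
    congr 1
    ring
  have h2 : Real.exp (-c) ≤ 1 / 2 := by
    have h3 : Real.exp (-c) ≤ Real.exp (-1) := Real.exp_le_exp.mpr (by linarith)
    have h4 : Real.exp (-1) ≤ 1 / 2 := by
      rw [Real.exp_neg, one_div]
      have h5 : (2 : ℝ) ≤ Real.exp 1 := by
        have := Real.add_one_le_exp (1 : ℝ)
        linarith
      exact inv_anti₀ (by norm_num) h5
    exact h3.trans h4
  have h0 : 0 ≤ Real.exp (-c) := (Real.exp_pos _).le
  have hlt : Real.exp (-c) < 1 := by linarith
  refine ⟨?_, ?_⟩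
  · rw [h1]
    exact summable_geometric_of_lt_one h0 hlt
  · have : ∑' j : ℕ, Real.exp (-(c * j)) = (1 - Real.exp (-c))⁻¹ := by
      rw [← tsum_geometric_of_lt_one h0 hlt]
      exact congrArg tsum h1
    rw [this]
    have h6 : (1 : ℝ) / 2 ≤ 1 - Real.exp (-c) := by linarith
    calc (1 - Real.exp (-c))⁻¹ ≤ (1 / 2 : ℝ)⁻¹ := inv_anti₀ (by norm_num) h6
      _ = 2 := by norm_num

theorem stb (hE : ExaStmt) (hC : CauStmt) : StbStmt := by
  intro M hM0 K h hs P y B D T hy hy4 hyM hB hD hT hbd hDj x hx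
  have hpi := Real.pi_pos
  have hpi3 : (3 : ℝ) < Real.pi := Real.pi_gt_three
  have hsq : 0 < Real.sqrt M := Real.sqrt_pos.mpr hM0
  set z : ℂ := (x : ℂ) + (y : ℂ) * Complex.I with hzdef
  have hzim : z.im = y := by simp [hzdef]
  have hzre : z.re = x := by simp [hzdef]
  have hz0 : z ≠ 0 := by
    intro h0
    rw [h0] at hzim
    simp at hzim
    linarith
  have hMC : (M : ℂ) ≠ 0 := by exact_mod_cast hM0.ne'
  have hns : Complex.normSq z = x ^ 2 + y ^ 2 := by
    rw [Complex.normSq_apply, hzim, hzre]; ring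
  set w : ℂ := -1 / ((M : ℂ) * z) with hwdef
  have hw := im_w' M hM0 z
  rw [hns, hzim] at hw
  have hwim : 1 ≤ w.im := by
    rw [hw, le_div_iff₀ (by positivity), one_mul]
    have h1 : y ^ 2 ≤ y / (2 * M) := by
      have : y * y ≤ y * (1 / (2 * M)) := mul_le_mul_of_nonneg_left hyM hy.le
      calc y ^ 2 = y * y := by ring
        _ ≤ y * (1 / (2 * M)) := this
        _ = y / (2 * M) := by ring
    have h2 : x ^ 2 + y ^ 2 ≤ y / M := by
      have : y / (2 * M) + y / (2 * M) = y / M := by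
        field_simp
        ring
      linarith
    calc M * (x ^ 2 + y ^ 2) ≤ M * (y / M) := mul_le_mul_of_nonneg_left h2 hM0.le
      _ = y := by field_simp
  have hwz : -1 / ((M : ℂ) * w) = z := by
    rw [hwdef]
    field_simp
  have hfe := P.fe w (by linarith)
  rw [hwz] at hfe
  have hny : y ≤ ‖z‖ := by
    have : |z.im| ≤ ‖z‖ := Complex.abs_im_le_norm z
    rw [hzim, abs_of_pos hy] at this
    exact this
  have hnw : ‖(Real.sqrt M : ℂ) * w‖ ≤ 1 / (Real.sqrt M * y) := by
    rw [norm_mul, Complex.norm_real, Real.norm_of_nonneg hsq.le, hwdef, norm_div, norm_neg,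
      norm_one, norm_mul, Complex.norm_real, Real.norm_of_nonneg hM0.le]
    have h3 : Real.sqrt M * (1 / (M * ‖z‖)) = 1 / (Real.sqrt M * ‖z‖) := by
      have hzpos : 0 < ‖z‖ := lt_of_lt_of_le hy hny
      have hMs : M = Real.sqrt M * Real.sqrt M := (Real.mul_self_sqrt hM0.le).symm
      rw [mul_one_div, div_eq_div_iff (by positivity) (by positivity)]
      calc Real.sqrt M * (Real.sqrt M * ‖z‖) = (Real.sqrt M * Real.sqrt M) * ‖z‖ := by ring
        _ = M * ‖z‖ := by rw [← hMs]
        _ = 1 * (M * ‖z‖) := by ring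
    rw [h3]
    apply one_div_le_one_div_of_le (by positivity)
    exact mul_le_mul_of_nonneg_left hny hsq.le
  -- the bound of the terms
  obtain ⟨_, hmaj, _⟩ := hE hs P.cs w 1 one_pos hwim
  have hterm : ∀ j : ℕ, ‖hs j‖ * Real.exp (-(2 * Real.pi * 1 * j)) ≤
      D * Real.exp (-(2 * Real.pi * j)) +
        B * Real.exp (-(Real.pi * T)) * Real.exp (-(Real.pi / 2 * j)) := by
    intro j
    have hj0 : (0 : ℝ) ≤ j := Nat.cast_nonneg j
    rcases le_or_gt (j : ℝ) T with hjT | hjT
    · have h4 : ‖hs j‖ * Real.exp (-(2 * Real.pi * 1 * j)) ≤ D * Real.exp (-(2 * Real.pi * j)) := by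
        rw [mul_one]
        exact mul_le_mul_of_nonneg_right (hDj j hjT) (Real.exp_pos _).le
      have h5 : 0 ≤ B * Real.exp (-(Real.pi * T)) * Real.exp (-(Real.pi / 2 * j)) := by positivity
      linarith
    · have h6 : ‖hs j‖ ≤ B * Real.exp (2 * Real.pi * y * j) :=
        hC hs P.cs y B hy (fun t _ => hbd _ (by simp)) j
      have h7 : ‖hs j‖ * Real.exp (-(2 * Real.pi * 1 * j)) ≤
          B * Real.exp (-(Real.pi * T)) * Real.exp (-(Real.pi / 2 * j)) := by
        calc ‖hs j‖ * Real.exp (-(2 * Real.pi * 1 * j)) ≤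
            (B * Real.exp (2 * Real.pi * y * j)) * Real.exp (-(2 * Real.pi * 1 * j)) :=
              mul_le_mul_of_nonneg_right h6 (Real.exp_pos _).le
          _ = B * Real.exp (2 * Real.pi * y * j + -(2 * Real.pi * 1 * j)) := by
              rw [mul_assoc, ← Real.exp_add]
          _ ≤ B * Real.exp (-(Real.pi * T) + -(Real.pi / 2 * j)) := by
              apply mul_le_mul_of_nonneg_left _ hB
              apply Real.exp_le_exp.mpr
              have h8 : 2 * Real.pi * y * j ≤ 2 * Real.pi * (1 / 4) * j := by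
                apply mul_le_mul_of_nonneg_right _ hj0
                apply mul_le_mul_of_nonneg_left hy4 (by positivity)
              have h9 : Real.pi * T ≤ Real.pi * j := mul_le_mul_of_nonneg_left hjT.le hpi.le
              linarith
          _ = B * Real.exp (-(Real.pi * T)) * Real.exp (-(Real.pi / 2 * j)) := by
              rw [mul_assoc, ← Real.exp_add]
      have h5 : 0 ≤ D * Real.exp (-(2 * Real.pi * j)) := by positivity
      linarith
  obtain ⟨hg1, hg1'⟩ := geo (2 * Real.pi) (by linarith)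
  obtain ⟨hg2, hg2'⟩ := geo (Real.pi / 2) (by linarith)
  have hS : Summable fun j : ℕ => D * Real.exp (-(2 * Real.pi * j)) +
        B * Real.exp (-(Real.pi * T)) * Real.exp (-(Real.pi / 2 * j)) :=
    (hg1.mul_left D).add (hg2.mul_left (B * Real.exp (-(Real.pi * T))))
  have hL : Summable fun j : ℕ => ‖hs j‖ * Real.exp (-(2 * Real.pi * 1 * j)) :=
    Summable.of_nonneg_of_le (fun j => by positivity) hterm hS
  have hsum : ∑' j : ℕ, ‖hs j‖ * Real.exp (-(2 * Real.pi * 1 * j)) ≤
      2 * D + 4 * B * Real.exp (-(Real.pi * T)) := by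
    calc ∑' j : ℕ, ‖hs j‖ * Real.exp (-(2 * Real.pi * 1 * j))
        ≤ ∑' j : ℕ, (D * Real.exp (-(2 * Real.pi * j)) +
          B * Real.exp (-(Real.pi * T)) * Real.exp (-(Real.pi / 2 * j))) :=
            hL.tsum_le_tsum hterm hS
      _ = D * ∑' j : ℕ, Real.exp (-(2 * Real.pi * j)) +
          B * Real.exp (-(Real.pi * T)) * ∑' j : ℕ, Real.exp (-(Real.pi / 2 * j)) := by
            rw [(hg1.mul_left D).tsum_add (hg2.mul_left (B * Real.exp (-(Real.pi * T)))),
              tsum_mul_left, tsum_mul_left]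
      _ ≤ D * 2 + B * Real.exp (-(Real.pi * T)) * 2 := by
            apply add_le_add
            · exact mul_le_mul_of_nonneg_left hg1' hD
            · exact mul_le_mul_of_nonneg_left hg2' (by positivity)
      _ ≤ _ := by
            have : 0 ≤ B * Real.exp (-(Real.pi * T)) := by positivity
            linarith
  rw [hfe, norm_mul, norm_pow]
  apply mul_le_mul _ (hmaj.trans hsum) (norm_nonneg _) (by positivity)
  exact pow_le_pow_left₀ (norm_nonneg _) hnw K

end

end Pool.Agent.H97.ICA
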