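import Pool.Agent.H97.ICA.Defs

/-!
[STC] Row of chapter 1 (THEOREM A) of THEOREM IC, MP_8e9775_nt.

PROOF. g(q) = sum over m of h (n + m) q^m (as in row MXP: continuous on |q| <= rho = exp (-2 pi y),
holomorphic in |q| < 1), Fn h z = q^n g(q) for q = exp (2 pi i z), g(0) = h n. G(q) = product over
j < J of g (exp (2 pi i j/J) q). G(0) = (h n)^J. For |q| = rho write q = exp (2 pi i (x0 + i y)):
the factor number j is, in absolute value, norm (Fn h (x0 + j/J + i y)) rho^(-n) <= B rho^(-n); and
for at least one j in range J the real number x0 + j/J is within 1/(2J) <= x1 of an integer (take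
k = round (J x0), so |x0 - k/J| <= 1/(2J), and j in range J congruent to -k mod J), and for this j
periodicity (hE, third part, iterated over the integers) gives the bound E rho^(-n). So
norm (G q) <= B^(J-1) E rho^(-n J) on |q| = rho; maximum principle
(Complex.norm_le_of_forall_mem_frontier_norm_le) at q = 0.
-/

namespace Pool.Agent.H97.ICA

open Complex NumberField

noncomputable section

private def gg (h : ℕ → ℂ) (n : ℕ) (q : ℂ) : ℂ := ∑' m : ℕ, h (n + m) * q ^ m

private theorem gg_zero (h : ℕ → ℂ) (n : ℕ) : gg h n 0 = h n := by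
  unfold gg
  rw [tsum_eq_single 0]
  · simp
  · intro m hm
    simp [hm]

private theorem summ_shift (h : ℕ → ℂ) (hc : Cv h) (n : ℕ) (r : ℝ) (hr0 : 0 < r) (hr1 : r < 1) :
    Summable (fun m : ℕ => ‖h (n + m)‖ * r ^ m) := by
  have h1 := hc r hr0.le hr1
  have h2 := (summable_nat_add_iff n).2 h1
  have h3 := h2.mul_left ((r ^ n)⁻¹)
  refine h3.congr ?_
  intro m
  rw [add_comm m n, pow_add]
  field_simp

private theorem gg_diff (h : ℕ → ℂ) (hc : Cv h) (n : ℕ) (r : ℝ) (hr0 : 0 < r) (hr1 : r < 1) :
    DifferentiableOn ℂ (gg h n) (Metric.ball 0 r) := by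
  unfold gg
  refine differentiableOn_tsum_of_summable_norm (summ_shift h hc n r hr0 hr1) ?_ Metric.isOpen_ball ?_
  · intro m
    exact (Differentiable.differentiableOn (by fun_prop))
  · intro m q hq
    rw [norm_mul, norm_pow]
    have : ‖q‖ < r := by simpa using hq
    gcongr

private theorem exp_per (k : ℕ) (z : ℂ) :
    Complex.exp (2 * Real.pi * Complex.I * k * z) = Complex.exp (2 * Real.pi * Complex.I * z) ^ k := by
  rw [← Complex.exp_nat_mul]
  congr 1
  ring

private theorem fn_eq (hE : ExaStmt) (h : ℕ → ℂ) (hc : Cv h) (n : ℕ) (hn : ∀ j < n, h j = 0) (z : ℂ)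
    (hz : 0 < z.im) :
    Fn h z = Complex.exp (2 * Real.pi * Complex.I * z) ^ n *
      gg h n (Complex.exp (2 * Real.pi * Complex.I * z)) := by
  have hs : Summable (fun k : ℕ => h k * Complex.exp (2 * Real.pi * Complex.I * k * z)) :=
    ((hE h hc z z.im hz le_rfl).1).of_norm
  unfold Fn gg
  rw [← hs.sum_add_tsum_nat_add n, Finset.sum_eq_zero, zero_add, ← tsum_mul_left]
  · congr 1
    funext m
    rw [exp_per, pow_add, add_comm m n]
    ring
  · intro j hj
    rw [hn j (Finset.mem_range.1 hj), zero_mul]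

private theorem per_int (hE : ExaStmt) (h : ℕ → ℂ) (hc : Cv h) (z : ℂ) (hz : 0 < z.im) (k : ℤ) :
    Fn h (z + k) = Fn h z := by
  have hp : ∀ w : ℂ, 0 < w.im → Fn h (w + 1) = Fn h w := fun w hw =>
    (hE h hc w w.im hw le_rfl).2.2
  induction k using Int.induction_on with
  | zero => simp
  | succ i ih =>
    have : z + ((i : ℤ) + 1 : ℤ) = (z + (i : ℤ)) + 1 := by push_cast; ring
    rw [this, hp _ (by simpa using hz), ih]
  | pred i ih =>
    have : z + ((-(i : ℤ)) : ℤ) = (z + ((-(i : ℤ) - 1 : ℤ) : ℂ)) + 1 := by push_cast; ring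
    rw [this, hp _ (by simpa using hz)] at ih
    exact ih

theorem stc (hE : ExaStmt) : StcStmt := by
  intro h hc y B E x1 J hy hB hE0 hJ hx1 hbB hbE n hn
  set ρ : ℝ := Real.exp (-(2 * Real.pi * y)) with hρ
  have hρ0 : 0 < ρ := Real.exp_pos _
  have hρ1 : ρ < 1 := by
    rw [hρ, Real.exp_lt_one_iff]
    have := Real.pi_pos
    have : 0 < 2 * Real.pi * y := by positivity
    linarith
  set r : ℝ := (1 + ρ) / 2 with hr
  have hr1 : r < 1 := by rw [hr]; linarith
  have hrρ : ρ < r := by rw [hr]; linarith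
  have hr0 : 0 < r := hρ0.trans hrρ
  have hJ0 : (0 : ℝ) < J := by exact_mod_cast hJ
  have hd := gg_diff h hc n r hr0 hr1
  set z0 : ℕ → ℂ := fun j => Complex.exp (2 * Real.pi * Complex.I * ((j : ℝ) / (J : ℝ) : ℝ)) with hz0
  have hz0n : ∀ j, ‖z0 j‖ = 1 := by
    intro j
    rw [hz0]
    simp only
    rw [Complex.norm_exp]
    simp
  set G : ℂ → ℂ := fun q => ∏ j ∈ Finset.range J, gg h n (z0 j * q) with hG
  have hG0 : G 0 = h n ^ J := by
    rw [hG]
    simp [gg_zero]
  have hGd : DifferentiableOn ℂ G (Metric.ball 0 r) := by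
    rw [hG]
    refine DifferentiableOn.fun_finsetProd ?_
    intro j _
    refine hd.comp (f := fun q : ℂ => z0 j * q) (Differentiable.differentiableOn (by fun_prop)) ?_
    intro q hq
    have hq' : ‖q‖ < r := by simpa using hq
    simp [hz0n, hq']
  have hGc : DiffContOnCl ℂ G (Metric.ball 0 ρ) := by
    refine DifferentiableOn.diffContOnCl ?_
    refine hGd.mono ?_
    rw [closure_ball _ hρ0.ne']
    exact Metric.closedBall_subset_ball hrρ
  have key : ∀ q ∈ frontier (Metric.ball (0 : ℂ) ρ),
      ‖G q‖ ≤ B ^ (J - 1) * E * Real.exp (2 * Real.pi * y * n * J) := by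
    intro q hq
    rw [frontier_ball _ hρ0.ne'] at hq
    have hqn : ‖q‖ = ρ := by simpa using hq
    have hq0 : q ≠ 0 := by
      intro h0
      rw [h0, norm_zero] at hqn
      exact hρ0.ne hqn
    set x0 : ℝ := Complex.arg q / (2 * Real.pi) with hx0
    have hpi := Real.pi_pos
    have hqe : ∀ j : ℕ, z0 j * q =
        Complex.exp (2 * Real.pi * Complex.I * (((x0 + (j : ℝ) / J : ℝ) : ℂ) + y * Complex.I)) := by
      intro j
      have h1 : q = Complex.exp (2 * Real.pi * Complex.I * ((x0 : ℂ) + y * Complex.I)) := by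
        have h2 : q = ‖q‖ * Complex.exp (Complex.arg q * Complex.I) :=
          (Complex.norm_mul_exp_arg_mul_I q).symm
        conv_lhs => rw [h2]
        rw [hqn, hρ, Complex.ofReal_exp, ← Complex.exp_add]
        congr 1
        have h3 : (Complex.arg q : ℂ) = 2 * Real.pi * x0 := by
          rw [hx0]
          push_cast
          field_simp
        rw [h3]
        push_cast
        linear_combination (-(2 * (Real.pi : ℂ) * y)) * Complex.I_sq
      conv_lhs => rw [h1]
      rw [hz0]
      simp only
      rw [← Complex.exp_add]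
      congr 1
      push_cast
      ring
    have him : ∀ x : ℝ, 0 < ((x : ℂ) + y * Complex.I).im := by
      intro x
      simpa using hy
    have hfac : ∀ j : ℕ, ‖gg h n (z0 j * q)‖ =
        ‖Fn h (((x0 + (j : ℝ) / J : ℝ) : ℂ) + y * Complex.I)‖ * Real.exp (2 * Real.pi * y * n) := by
      intro j
      rw [hqe j, fn_eq hE h hc n hn _ (him _), norm_mul, norm_pow, ← hqe j, norm_mul, hz0n, hqn,
        one_mul, hρ, ← Real.exp_nat_mul]
      have h5 : Real.exp (n * -(2 * Real.pi * y)) * Real.exp (2 * Real.pi * y * n) = 1 := by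
        rw [← Real.exp_add]
        have : n * -(2 * Real.pi * y) + 2 * Real.pi * y * n = 0 := by ring
        rw [this, Real.exp_zero]
      calc ‖gg h n (z0 j * q)‖ = ‖gg h n (z0 j * q)‖ *
            (Real.exp (n * -(2 * Real.pi * y)) * Real.exp (2 * Real.pi * y * n)) := by
            rw [h5, mul_one]
        _ = _ := by ring
    have hle : ∀ j : ℕ, ‖gg h n (z0 j * q)‖ ≤ B * Real.exp (2 * Real.pi * y * n) := by
      intro j
      rw [hfac j]
      gcongr
      exact hbB _
    -- the good rotation
    obtain ⟨j0, hj0, hj0E⟩ : ∃ j0 ∈ Finset.range J,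
        ‖gg h n (z0 j0 * q)‖ ≤ E * Real.exp (2 * Real.pi * y * n) := by
      set k : ℤ := round ((J : ℝ) * x0) with hk
      have hkr : |(J : ℝ) * x0 - k| ≤ 1 / 2 := abs_sub_round _
      have hJz : (0 : ℤ) < J := by exact_mod_cast hJ
      set jz : ℤ := (-k) % (J : ℤ) with hjz
      have hjz0 : 0 ≤ jz := Int.emod_nonneg _ hJz.ne'
      have hjz1 : jz < J := Int.emod_lt_of_pos _ hJz
      have hdiv : jz = -k - J * ((-k) / J) := by
        rw [hjz, Int.emod_def]
      refine ⟨jz.toNat, ?_, ?_⟩
      · rw [Finset.mem_range]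
        omega
      · have hcast : ((jz.toNat : ℕ) : ℝ) = -k - J * (((-k) / (J : ℤ) : ℤ) : ℝ) := by
          have h1 : ((jz.toNat : ℕ) : ℤ) = jz := Int.toNat_of_nonneg hjz0
          have h2 : ((jz.toNat : ℕ) : ℝ) = (jz : ℝ) := by exact_mod_cast h1
          rw [h2, hdiv]
          push_cast
          ring
        rw [hfac]
        gcongr
        set d : ℤ := (-k) / (J : ℤ) with hd'
        set x : ℝ := x0 - k / J with hx
        have hxx : (((x0 + ((jz.toNat : ℕ) : ℝ) / J : ℝ) : ℂ) + y * Complex.I) =
            ((x : ℂ) + y * Complex.I) + ((-d : ℤ) : ℂ) := by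
          have h3 : x0 + ((jz.toNat : ℕ) : ℝ) / J = x - d := by
            rw [hcast, hx]
            field_simp
            ring
          rw [h3]
          push_cast
          ring
        rw [hxx, per_int hE h hc _ (him x)]
        apply hbE
        refine le_trans ?_ hx1
        have h4 : x = ((J : ℝ) * x0 - k) / J := by
          rw [hx]
          field_simp
        rw [h4, abs_div, abs_of_pos hJ0, div_le_div_iff₀ hJ0 (by positivity)]
        nlinarith [hkr, hJ0]
    rw [hG]
    simp only
    rw [norm_prod, ← Finset.mul_prod_erase _ _ hj0]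
    have hc1 : (Finset.range J |>.erase j0).card = J - 1 := by
      rw [Finset.card_erase_of_mem hj0, Finset.card_range]
    have hp : ∏ j ∈ (Finset.range J).erase j0, ‖gg h n (z0 j * q)‖ ≤
        (B * Real.exp (2 * Real.pi * y * n)) ^ (J - 1) := by
      rw [← hc1, ← Finset.prod_const]
      exact Finset.prod_le_prod (fun j _ => norm_nonneg _) (fun j _ => hle j)
    calc ‖gg h n (z0 j0 * q)‖ * ∏ j ∈ (Finset.range J).erase j0, ‖gg h n (z0 j * q)‖
        ≤ (E * Real.exp (2 * Real.pi * y * n)) * (B * Real.exp (2 * Real.pi * y * n)) ^ (J - 1) := by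
          gcongr
      _ = B ^ (J - 1) * E * (Real.exp (2 * Real.pi * y * n) * Real.exp (2 * Real.pi * y * n) ^ (J - 1)) := by
          rw [mul_pow]; ring
      _ = B ^ (J - 1) * E * Real.exp (2 * Real.pi * y * n * J) := by
          rw [← pow_succ', Nat.sub_add_cancel hJ, ← Real.exp_nat_mul]
          congr 2
          ring
  have hfin := Complex.norm_le_of_forall_mem_frontier_norm_le Metric.isBounded_ball hGc key
    (z := 0) (subset_closure (Metric.mem_ball_self hρ0))
  rw [hG0, norm_pow] at hfin
  exact hfin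

end

end Pool.Agent.H97.ICA
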