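import Pool.Agent.H97.ICA.Exa
import Pool.Agent.H97.ICA.Cau
import Pool.Agent.H97.ICA.Mxp
import Pool.Agent.H97.ICA.Sta
import Pool.Agent.H97.ICA.Stb
import Pool.Agent.H97.ICA.Stc
import Pool.Agent.H97.ICA.Ref
import Pool.Agent.H97.ICA.Eva
import Pool.Agent.H97.ICA.Evb
import Pool.Agent.H97.ICA.Map
import Pool.Agent.H97.ICA.Pol
import Pool.Agent.H97.ICA.Coe
import Pool.Agent.H97.ICA.Sie
import Pool.Agent.H97.ICA.Fin

/-!
THEOREM A (chapter 1 of THEOREM IC, MP_8e9775_nt): assembly.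
-/

namespace Pool.Agent.H97.ICA

theorem refl_lemma : RefStmt :=
  ref (sta exa (cau exa) (mxp exa)) (stb exa (cau exa)) (stc exa)

theorem thmA : ThmA :=
  thmA_of exa refl_lemma (evb eva) mp pol (coe (evb eva) (cau exa)) sie

end Pool.Agent.H97.ICA
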